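import Pool.Agent.Q275.Cheb.Cond
import Pool.Agent.H916R2.OddChar

/-!
# The arithmetic consequences of the condition on digits
-/

set_option autoImplicit false
set_option linter.unusedSectionVars false

namespace Pool.Agent.Q275.Cheb

open Finset Pool.Agent.Y145.DI Pool.Agent.H916R2

/-- restriction of the condition to divisors -/
theorem Bal.of_dvd {p d d' : ℕ} (h : Bal p d) (hd : Odd d) (hdd : d' ∣ d) : Bal p d' := by
  obtain ⟨F, hF0, hN, hbal⟩ := h
  obtain ⟨m, rfl⟩ := hdd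
  have hm : Odd m := Nat.Odd.of_mul_left (m := m) (n := d') (by rwa [mul_comm])
  have hd'o : Odd d' := Nat.Odd.of_mul_left hd
  have hm0 := hm.pos
  refine ⟨F, hF0, dvd_trans ⟨m, by ring⟩ hN, ?_⟩
  intro n hn hno hdn
  have h1 : ∀ b : ℕ, expo p (4 * (d' * m)) F (b * m) = m * expo p (4 * d') F b := by
    intro b
    unfold expo
    rw [mul_sum]
    refine sum_congr rfl fun s _ => ?_
    rw [show 4 * (d' * m) = m * (4 * d') by ring, show b * m * p ^ s = m * (b * p ^ s) by ring,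
      Nat.mul_mod_mul_left]
  have h2 := hbal (n * m) (by nlinarith) (hno.mul hm) (by
    intro h
    exact hdn (Nat.dvd_of_mul_dvd_mul_right hm0 h))
  have h3 : (n * m + 2 * (d' * m)) % (4 * (d' * m)) = ((n + 2 * d') % (4 * d')) * m := by
    rw [show n * m + 2 * (d' * m) = (n + 2 * d') * m by ring,
      show 4 * (d' * m) = (4 * d') * m by ring, Nat.mul_mod_mul_right]
  rw [h3, h1, h1] at h2
  exact Nat.eq_of_mul_eq_mul_left hm0 h2

lemma two_dvd_level {d : ℕ} : 2 ∣ 4 * d := ⟨2 * d, by ring⟩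

section level

variable {d : ℕ} [NeZero d]

instance : NeZero (4 * d) := ⟨by have := NeZero.ne d; omega⟩

/-- reduction modulo two -/
noncomputable abbrev r2 (d : ℕ) : ZMod (4 * d) →+* ZMod 2 := ZMod.castHom two_dvd_level (ZMod 2)
/-- reduction modulo four -/
noncomputable abbrev r4 (d : ℕ) : ZMod (4 * d) →+* ZMod 4 :=
  ZMod.castHom (Dvd.intro d rfl) (ZMod 4)
/-- reduction modulo `d` -/
noncomputable abbrev rd (d : ℕ) : ZMod (4 * d) →+* ZMod d :=
  ZMod.castHom (Dvd.intro_left 4 rfl) (ZMod d)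

lemma r2_val (x : ZMod (4 * d)) : r2 d x = ((x.val : ℕ) : ZMod 2) := by
  rw [ZMod.castHom_apply, ZMod.natCast_val]
lemma r4_val (x : ZMod (4 * d)) : r4 d x = ((x.val : ℕ) : ZMod 4) := by
  rw [ZMod.castHom_apply, ZMod.natCast_val]
lemma rd_val (x : ZMod (4 * d)) : rd d x = ((x.val : ℕ) : ZMod d) := by
  rw [ZMod.castHom_apply, ZMod.natCast_val]

/-- the sum of the sawtooth function over an orbit -/
def H (p F : ℕ) {N : ℕ} (x : ZMod N) : ℤ := ∑ s ∈ range F, saw ((p : ZMod N) ^ s * x)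

lemma saw_val (x : ZMod (4 * d)) (hx : x ≠ 0) : saw x = 2 * (x.val : ℤ) - (4 * d : ℕ) := by
  unfold saw; rw [if_neg hx]

lemma H_expo {p F : ℕ} (hp : IsUnit (p : ZMod (4 * d))) (x : ZMod (4 * d)) (hx : x ≠ 0) :
    H p F x = 2 * (expo p (4 * d) F x.val : ℤ) - F * (4 * d : ℕ) := by
  unfold H expo
  have h1 : ∀ s ∈ range F, saw ((p : ZMod (4 * d)) ^ s * x) =
      2 * (((x.val * p ^ s) % (4 * d) : ℕ) : ℤ) - (4 * d : ℕ) := by
    intro s _
    have h2 : (p : ZMod (4 * d)) ^ s * x ≠ 0 := by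
      intro h
      exact hx ((hp.pow s).mul_right_eq_zero.1 h)
    rw [saw_val _ h2]
    congr 3
    rw [mul_comm ((p : ZMod (4 * d)) ^ s) x, ZMod.val_mul, ← Nat.cast_pow, ZMod.val_natCast, Nat.mul_mod_mod]
  rw [sum_congr rfl h1, sum_sub_distrib, sum_const, card_range, nsmul_eq_mul, ← mul_sum]
  push_cast
  rfl

/-- the condition in terms of `H` -/
theorem bal_H {p F : ℕ} (hF0 : 0 < F) (hN : 4 * d ∣ p ^ F - 1) (hp1 : 1 ≤ p)
    (hbal : ∀ n : ℕ, n < 4 * d → Odd n → ¬ d ∣ n →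
      expo p (4 * d) F n = expo p (4 * d) F ((n + 2 * d) % (4 * d)))
    (x : ZMod (4 * d)) (h2 : r2 d x = 1) (hd : rd d x ≠ 0) :
    H p F x = H p F (x + ((2 * d : ℕ) : ZMod (4 * d))) := by
  have hd0 : 0 < d := Nat.pos_of_ne_zero (NeZero.ne d)
  have hpF : (p : ZMod (4 * d)) ^ F = 1 := by
    have h3 : ((p ^ F - 1 : ℕ) : ZMod (4 * d)) = 0 := (ZMod.natCast_eq_zero_iff _ _).2 hN
    rw [Nat.cast_sub (Nat.one_le_pow _ _ hp1), Nat.cast_one, sub_eq_zero] at h3
    rw [← h3]; push_cast; rfl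
  have hpu : IsUnit (p : ZMod (4 * d)) := IsUnit.of_pow_eq_one hpF hF0.ne'
  have hx : x ≠ 0 := by rintro rfl; exact hd (map_zero _)
  have hcast : rd d ((2 * d : ℕ) : ZMod (4 * d)) = 0 := by
    rw [map_natCast, Nat.cast_mul, ZMod.natCast_self, mul_zero]
  have hx' : x + ((2 * d : ℕ) : ZMod (4 * d)) ≠ 0 := by
    intro h
    apply hd
    have := congrArg (rd d) h
    rwa [map_add, hcast, add_zero, map_zero] at this
  rw [H_expo hpu x hx, H_expo hpu _ hx']
  congr 3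
  have h3 := hbal x.val (ZMod.val_lt x) (by
    rw [r2_val] at h2
    rw [← ZMod.natCast_eq_one_iff_odd]
    exact h2) (by
    intro h
    apply hd
    rw [rd_val]
    exact (ZMod.natCast_eq_zero_iff _ _).2 h)
  rw [h3]
  congr 1
  rw [ZMod.val_add, ZMod.val_natCast, Nat.add_mod_mod]

end level

end Pool.Agent.Q275.Cheb
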