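import Pool.Agent.Q275.Cheb.Field

/-!
# Character sums attached to the polynomials `φ_d`
-/

set_option autoImplicit false
set_option linter.unusedSectionVars false

namespace Pool.Agent.Q275.Cheb

open Finset

section one

variable {E K : Type} [Field E] [Fintype E] [DecidableEq E] [Field K] [CharZero K]

lemma mpow_apply (χ : MulChar E K) (n : ℕ) {a : E} (ha : a ≠ 0) : (χ ^ n) a = χ a ^ n :=
  MulChar.pow_apply_coe χ n (Units.mk0 a ha)

lemma exists_gen : ∃ g : Eˣ, ∀ x, x ∈ Subgroup.zpowers g :=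
  IsCyclic.exists_generator (α := Eˣ)

lemma gen_pow {g : Eˣ} (hg : ∀ x, x ∈ Subgroup.zpowers g) (x : Eˣ) : ∃ i : ℕ, g ^ i = x :=
  mem_powers_iff_mem_zpowers.2 (hg x)

lemma prim_of_order {g : Eˣ} (hg : ∀ x, x ∈ Subgroup.zpowers g) (χ : MulChar E K) {N : ℕ}
    (h : orderOf χ = N) : IsPrimitiveRoot (χ (g : E)) N := by
  have h3 : ∀ m : ℕ, χ (g : E) ^ m = 1 ↔ χ ^ m = 1 := by
    intro m
    constructor
    · intro h4
      ext u
      obtain ⟨a, rfl⟩ := gen_pow hg u
      rw [Units.val_pow_eq_pow_val, map_pow, mpow_apply χ m g.ne_zero, h4, one_pow, MulChar.one_apply]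
      exact (g ^ a).isUnit
    · intro h4
      rw [← mpow_apply χ m g.ne_zero, h4, MulChar.one_apply_coe]
  refine ⟨?_, ?_⟩
  · rw [h3, ← h, pow_orderOf_eq_one]
  · intro m hm
    rw [h3] at hm
    rw [← h]
    exact orderOf_dvd_of_pow_eq_one hm

lemma pow_order {χ : MulChar E K} {N : ℕ} (h : orderOf χ = N) (t : Eˣ) : χ (t : E) ^ N = 1 := by
  rw [← mpow_apply χ N t.ne_zero, ← h, pow_orderOf_eq_one, MulChar.one_apply_coe]

/-- a character of order `2 m` has `m`-th power the quadratic character -/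
lemma pow_eq_quad {κ : MulChar E K} {m : ℕ} (hm : 0 < m) (h : orderOf κ = 2 * m) (t : Eˣ) :
    κ (t : E) ^ m = (quadraticChar E (t : E) : K) := by
  have hsq : ∀ s : E, s ≠ 0 → κ (s * s) ^ m = 1 := by
    intro s hs
    rw [map_mul, ← pow_two, ← pow_mul]
    exact pow_order h (Units.mk0 s hs)
  by_cases hs : IsSquare (t : E)
  · obtain ⟨s, hs'⟩ := hs
    have hs0 : s ≠ 0 := by
      rintro rfl
      exact t.ne_zero (by rw [hs', mul_zero])
    have h1 : quadraticChar E (t : E) = 1 :=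
      (quadraticChar_one_iff_isSquare t.ne_zero).2 ⟨s, hs'⟩
    rw [h1, hs', hsq s hs0, Int.cast_one]
  · have h1 : quadraticChar E (t : E) = -1 := quadraticChar_neg_one_iff_not_isSquare.2 hs
    rw [h1, Int.cast_neg, Int.cast_one]
    have h2 : (κ (t : E) ^ m) * (κ (t : E) ^ m) = 1 := by
      rw [← pow_add, ← two_mul, pow_order h]
    rcases mul_self_eq_one_iff.1 h2 with h3 | h3
    · exfalso
      have h4 : κ ^ m = 1 := by
        ext u
        rw [mpow_apply κ m u.ne_zero, MulChar.one_apply_coe]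
        by_cases hu : IsSquare (u : E)
        · obtain ⟨s, hs'⟩ := hu
          have hs0 : s ≠ 0 := by
            rintro rfl
            exact u.ne_zero (by rw [hs', mul_zero])
          rw [hs', hsq s hs0]
        · have h5 : quadraticChar E ((u : E) * (t : E)) = 1 := by
            rw [map_mul, h1, quadraticChar_neg_one_iff_not_isSquare.2 hu]
            norm_num
          obtain ⟨s, hs'⟩ := (quadraticChar_one_iff_isSquare (mul_ne_zero u.ne_zero t.ne_zero)).1 h5
          have hs0 : s ≠ 0 := by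
            rintro rfl
            exact mul_ne_zero u.ne_zero t.ne_zero (by rw [hs', mul_zero])
          have h6 := hsq s hs0
          rw [← hs', map_mul, mul_pow, h3, mul_one] at h6
          exact h6
      have h5 := orderOf_dvd_of_pow_eq_one h4
      rw [h] at h5
      have := Nat.le_of_dvd hm h5
      omega
    · exact h3

/-- `∑ κ(w) χ(1 + w)`, where `χ` is the quadratic character -/
noncomputable def Jp (κ : MulChar E K) : K := ∑ w : E, κ w * (quadraticChar E (1 + w) : K)

lemma sum_units {f : E → K} (h0 : f 0 = 0) : ∑ w : E, f w = ∑ t : Eˣ, f (t : E) := by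
  classical
  rw [← Finset.add_sum_erase _ _ (mem_univ (0 : E)), h0, zero_add]
  symm
  refine sum_bij (fun t _ => (t : E)) ?_ ?_ ?_ ?_
  · intro t _
    exact mem_erase.2 ⟨t.ne_zero, mem_univ _⟩
  · intro s _ t _ h
    exact Units.ext h
  · intro b hb
    exact ⟨Units.mk0 b (mem_erase.1 hb).1, mem_univ _, rfl⟩
  · intro t _
    rfl

lemma quad_sq (a : Eˣ) : quadraticChar E (a : E) * quadraticChar E (a : E) = 1 := by
  rw [← pow_two]
  exact quadraticChar_sq_one a.ne_zero

lemma quad_inv (a : Eˣ) : quadraticChar E ((a⁻¹ : Eˣ) : E) = quadraticChar E (a : E) := by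
  have h1 : quadraticChar E ((a⁻¹ : Eˣ) : E) * quadraticChar E (a : E) = 1 := by
    rw [← map_mul]; simp
  have h2 := quad_sq a
  have h3 : (quadraticChar E ((a⁻¹ : Eˣ) : E)) =
    (quadraticChar E ((a⁻¹ : Eˣ) : E)) * ((quadraticChar E (a : E)) * (quadraticChar E (a : E))) := by
    rw [h2, mul_one]
  rw [h3, ← mul_assoc, h1, one_mul]

/-- the split part -/
theorem split_part {a : ℕ} (ha : 0 < a) (h4 : 4 * a ∣ Fintype.card E - 1) {κ : MulChar E K}
    (hκ : orderOf κ = 4 * a) :
    ∑ t : Eˣ, (quadraticChar E (((t ^ a : Eˣ) : E) + (((t ^ a : Eˣ) : E))⁻¹) : K) =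
      ∑ j ∈ range (2 * a), Jp (κ ^ (a + 2 * j)) := by
  obtain ⟨g, hg⟩ := exists_gen (E := E)
  have hprim := prim_of_order hg κ hκ
  set φ : Eˣ →* K := (κ ^ 2).toMonoidHom.comp (Units.coeHom E) with hφ
  have hφa : ∀ t : Eˣ, φ t = κ (t : E) ^ 2 := fun t => mpow_apply κ 2 t.ne_zero
  have hφg : IsPrimitiveRoot (φ g) (2 * a) := by
    rw [hφa]
    exact hprim.pow (by omega) (by ring)
  have key := sum_pow_dvd (G := Eˣ) (n := 2 * a) (by omega)
    (by rw [Fintype.card_units]; exact dvd_trans ⟨2, by ring⟩ h4) g hg φ hφg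
    (fun w => κ (w : E) ^ a * (quadraticChar E (1 + (w : E)) : K))
  have hL : ∀ t : Eˣ, (quadraticChar E (((t ^ a : Eˣ) : E) + (((t ^ a : Eˣ) : E))⁻¹) : K) =
      κ ((t ^ (2 * a) : Eˣ) : E) ^ a * (quadraticChar E (1 + ((t ^ (2 * a) : Eˣ) : E)) : K) := by
    intro t
    have h1 : ((t ^ a : Eˣ) : E) + (((t ^ a : Eˣ) : E))⁻¹ =
        (((t ^ a)⁻¹ : Eˣ) : E) * (1 + ((t ^ (2 * a) : Eˣ) : E)) := by
      rw [Units.val_inv_eq_inv_val, two_mul, pow_add, Units.val_mul]
      have := (t ^ a).ne_zero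
      field_simp
      ring
    rw [h1, map_mul, Int.cast_mul, quad_inv, ← pow_eq_quad (κ := κ) (m := 2 * a) (by omega)
      (by rw [hκ]; ring)]
    congr 1
    rw [Units.val_pow_eq_pow_val, Units.val_pow_eq_pow_val, map_pow, map_pow, ← pow_mul, ← pow_mul]
    congr 1
    ring
  rw [sum_congr rfl fun t _ => hL t, key]
  refine sum_congr rfl fun j _ => ?_
  unfold Jp
  rw [sum_units (f := fun w => (κ ^ (a + 2 * j)) w * (quadraticChar E (1 + w) : K))
    (by simp only [MulChar.map_zero, zero_mul])]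
  refine sum_congr rfl fun w _ => ?_
  rw [hφa, mpow_apply κ _ w.ne_zero, ← mul_assoc]
  congr 1
  rw [← pow_mul, ← pow_add]
  congr 1
  ring

end one

end Pool.Agent.Q275.Cheb
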