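import Pool.Agent.Q275.Cheb.Extremal
import Pool.Agent.Y145.DI.Stick

/-!
# The condition on digits
-/

set_option autoImplicit false
set_option linter.unusedSectionVars false

namespace Pool.Agent.Q275.Cheb

open Finset Polynomial Pool.Agent.Y145.DI

/-- the condition on digits -/
def Bal (p d : ℕ) : Prop :=
  ∃ F : ℕ, 0 < F ∧ 4 * d ∣ p ^ F - 1 ∧ ∀ n : ℕ, n < 4 * d → Odd n → ¬ d ∣ n →
    expo p (4 * d) F n = expo p (4 * d) F ((n + 2 * d) % (4 * d))

variable {p : ℕ} [Fact p.Prime]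

lemma charP_of {E : Type} [Field E] [CharP E p] {L : Type} [Field L] [Algebra E L] : CharP L p :=
  charP_of_injective_algebraMap (algebraMap E L).injective p

lemma exists_card (E : Type) [Field E] [Fintype E] [CharP E p] :
    ∃ F : ℕ, 0 < F ∧ Fintype.card E = p ^ F := by
  obtain ⟨n, _, hn⟩ := FiniteField.card E p
  exact ⟨n, n.2, hn⟩

lemma bal_of_norm {E : Type} [Field E] [Fintype E] [DecidableEq E] [CharP E p]
    (w : MulChar E (PadicAlgCl p)) (ψ : AddChar E (PadicAlgCl p)) (hψ : ψ.IsPrimitive)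
    (hψc : ∀ y, ψ (y ^ p) = ψ y)
    (hw : ‖((p : ℕ) : PadicAlgCl p)‖ ≤ ‖gaussSum w⁻¹ ψ‖ ^ (p - 1))
    (ho : orderOf w = Fintype.card E - 1) {d : ℕ} (hd : Odd d) (hN : 4 * d ∣ Fintype.card E - 1)
    (h : ∀ n : ℕ, Odd n → ¬ d ∣ n →
      ‖gaussSum (((w ^ ((Fintype.card E - 1) / (4 * d)))⁻¹) ^ n) ψ‖ =
      ‖gaussSum (((w ^ ((Fintype.card E - 1) / (4 * d)))⁻¹) ^ (n + 2 * d)) ψ‖) : Bal p d := by
  obtain ⟨F, hF0, hF⟩ := exists_card (p := p) E
  have hd0 := hd.pos
  obtain ⟨hp0, hp1⟩ := norm_p_lt (p := p)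
  refine ⟨F, hF0, by rw [← hF]; exact hN, ?_⟩
  intro n hn hno hdn
  set T := w ^ ((Fintype.card E - 1) / (4 * d)) with hT
  have hTo : orderOf T = 4 * d := by
    have hd' : (Fintype.card E - 1) / (4 * d) ≠ 0 := by
      have h1 : 1 < Fintype.card E := Fintype.one_lt_card
      have := Nat.div_pos (Nat.le_of_dvd (by omega) hN) (by omega : 0 < 4 * d)
      omega
    rw [hT, orderOf_pow_of_dvd hd' (by rw [ho]; exact Nat.div_dvd_of_dvd hN), ho,
      Nat.div_div_self hN (by have h1 : 1 < Fintype.card E := Fintype.one_lt_card; omega)]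
  have hn0 : 0 < n := hno.pos
  have hm0 : 0 < (n + 2 * d) % (4 * d) := by
    rcases Nat.eq_zero_or_pos ((n + 2 * d) % (4 * d)) with h1 | h1
    · exfalso
      apply hdn
      have h2 := Nat.dvd_of_mod_eq_zero h1
      have h3 : d ∣ n + 2 * d := (Dvd.intro_left 4 rfl).trans h2
      exact (Nat.dvd_add_left (Dvd.intro_left 2 rfl)).1 h3
    · exact h1
  have h1 := norm_gauss_eq w ψ hψ hψc hw ho hF hN hF0 n hn0 hn
  have h2 := norm_gauss_eq w ψ hψ hψc hw ho hF hN hF0 ((n + 2 * d) % (4 * d)) hm0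
    (Nat.mod_lt _ (by omega))
  rw [← hT, ← inv_pow] at h1 h2
  have h3 : (T⁻¹) ^ ((n + 2 * d) % (4 * d)) = (T⁻¹) ^ (n + 2 * d) := by
    have h4 : orderOf T⁻¹ = 4 * d := by rw [orderOf_inv, hTo]
    rw [← h4, pow_mod_orderOf]
  rw [h3, ← h n hno hdn, h1] at h2
  exact pow_right_injective₀ hp0 hp1.ne h2

lemma pow_eq_chi {E K : Type} [Field E] [Fintype E] [DecidableEq E] [Field K] [CharZero K]
    {κ : MulChar E K} {d : ℕ} (hd : 0 < d) (h : orderOf κ = 4 * d) : κ ^ (2 * d) = chi E K := by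
  ext t
  rw [mpow_apply κ _ t.ne_zero, pow_eq_quad (κ := κ) (m := 2 * d) (by omega) (by rw [h]; ring),
    chi_apply]

lemma T_inv_order {E : Type} [Field E] [Fintype E] {w : MulChar E (PadicAlgCl p)}
    (ho : orderOf w = Fintype.card E - 1) {N : ℕ} (hN0 : 0 < N) (hN : N ∣ Fintype.card E - 1) :
    orderOf (w ^ ((Fintype.card E - 1) / N))⁻¹ = N := by
  have h1 : 1 < Fintype.card E := Fintype.one_lt_card
  have hd' : (Fintype.card E - 1) / N ≠ 0 := by
    have := Nat.div_pos (Nat.le_of_dvd (by omega) hN) hN0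
    omega
  rw [orderOf_inv, orderOf_pow_of_dvd hd' (by rw [ho]; exact Nat.div_dvd_of_dvd hN), ho,
    Nat.div_div_self hN (by omega)]

lemma norm_chi_gauss {E : Type} [Field E] [Fintype E] [DecidableEq E] {q : ℕ}
    (h2 : ringChar E ≠ 2) (hq : Fintype.card E = q ^ 2) {ψ : AddChar E (PadicAlgCl p)}
    (hψ : ψ.IsPrimitive) :
    ‖gaussSum (chi E (PadicAlgCl p)) ψ‖ = ‖((q : ℕ) : PadicAlgCl p)‖ := by
  have hquad : (chi E (PadicAlgCl p)).IsQuadratic := by
    intro a
    rcases quadraticChar_isQuadratic E a with h | h | h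
    · left; rw [chi_apply, h]; simp
    · right; left; rw [chi_apply, h]; simp
    · right; right; rw [chi_apply, h]; simp
  have h1 := gaussSum_sq (chi_ne_one (K := PadicAlgCl p) h2) hquad hψ
  have h3 := congrArg norm h1
  rw [norm_pow, norm_mul, norm_root _ (neg_ne_zero.2 one_ne_zero), one_mul, hq, Nat.cast_pow,
    norm_pow] at h3
  exact (pow_left_inj₀ (norm_nonneg _) (norm_nonneg _) two_ne_zero).1 h3

theorem bal_split {E : Type} [Field E] [Fintype E] [DecidableEq E] [CharP E p]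
    (hE : Fintype.card E % 4 = 1) {d q : ℕ} (hd : Odd d) (hq : Fintype.card E = q ^ 2)
    (hN : 4 * d ∣ Fintype.card E - 1) {κ : MulChar E ℂ} (hκ : orderOf κ = 4 * d)
    (h : ∀ n : ℕ, Odd n → ¬ d ∣ n → Jp (κ ^ n) = (q : ℂ)) : Bal p d := by
  obtain ⟨w, ψ, hψ, hψc, hw, ho⟩ := exists_wp (p := p) E
  have hd0 := hd.pos
  have h2 := ringChar_ne hE
  apply bal_of_norm w ψ hψ hψc hw ho hd hN
  intro n hn hdn
  set T := (w ^ ((Fintype.card E - 1) / (4 * d)))⁻¹ with hT
  have hTo : orderOf T = 4 * d := T_inv_order ho (by omega) hN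
  have h1 : Jp (T ^ n) = ((q : ℤ) : PadicAlgCl p) :=
    transfer (fun w => quadraticChar E (1 + w)) n κ T (by omega) hκ hTo (q : ℤ) (by
      have := h n hn hdn
      unfold Jp at this
      rw [this]
      push_cast
      rfl)
  rw [Jp_eq] at h1
  have h3 := congrArg norm h1
  rw [norm_mul, norm_root _ (neg_ne_zero.2 one_ne_zero), one_mul, Int.cast_natCast] at h3
  have hchi := pow_eq_chi hd0 hTo
  have hmul : T ^ n * chi E (PadicAlgCl p) = T ^ (n + 2 * d) := by rw [← hchi, pow_add]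
  have hne : T ^ n * chi E (PadicAlgCl p) ≠ 1 := by
    rw [hmul]
    have hodd : Odd (n + 2 * d) := by
      obtain ⟨k, hk⟩ := hn
      exact ⟨k + d, by omega⟩
    exact (pow_ne_one_of_odd hTo hodd).1
  have h4 := congrArg norm (jacobiSum_mul_nontrivial hne ψ)
  rw [norm_mul, norm_mul, h3, norm_chi_gauss h2 hq hψ, hmul] at h4
  have hq0 : ((q : ℕ) : PadicAlgCl p) ≠ 0 := by
    have h5 : Fintype.card E ≠ 0 := Fintype.card_ne_zero
    rw [hq] at h5
    have h6 : q ≠ 0 := by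
      rintro rfl
      exact h5 (by norm_num)
    exact_mod_cast h6
  exact (mul_right_cancel₀ (norm_ne_zero_iff.2 hq0) h4).symm

theorem bal_torus {E L : Type} [Field E] [Fintype E] [DecidableEq E] [CharP E p]
    [Field L] [Fintype L] [DecidableEq L] [Algebra E L]
    (hc : Fintype.card L = Fintype.card E ^ 2)
    (hE : Fintype.card E % 4 = 1) {d q : ℕ} (hd : Odd d) (hq : Fintype.card E = q ^ 2)
    (hN : 4 * d ∣ Fintype.card L - 1) (hdQ : d ∣ Fintype.card E + 1) {μ : MulChar L ℂ}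
    (hμ : orderOf μ = 4 * d)
    (h : ∀ n : ℕ, Odd n → ¬ d ∣ n → Up E (μ ^ n) = ((Fintype.card E - 1 : ℕ) : ℂ) * q) :
    Bal p d := by
  have : CharP L p := charP_of (E := E)
  obtain ⟨w, ψ, hψ, hψc, hw, ho⟩ := exists_wp (p := p) L
  obtain ⟨-, ψE, hψE, -, -, -⟩ := exists_wp (p := p) E
  have hd0 := hd.pos
  have h2 := ringChar_ne hE
  apply bal_of_norm w ψ hψ hψc hw ho hd hN
  set T := (w ^ ((Fintype.card L - 1) / (4 * d)))⁻¹ with hT
  have hTo : orderOf T = 4 * d := T_inv_order ho (by omega) hN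
  have hQ : ((Fintype.card E - 1 : ℕ) : PadicAlgCl p) ≠ 0 := by
    have : 1 < Fintype.card E := Fintype.one_lt_card
    exact_mod_cast (by omega : Fintype.card E - 1 ≠ 0)
  have key : ∀ n : ℕ, Odd n → ¬ d ∣ n → ‖gaussSum (T ^ n) ψ‖ =
      ‖((q : ℕ) : PadicAlgCl p) * gaussSum (chi E (PadicAlgCl p)) ψE‖ := by
    intro n hn hdn
    have h1 : Up E (T ^ n) = (((((Fintype.card E - 1 : ℕ) : ℤ) * (q : ℤ)) : ℤ) : PadicAlgCl p) :=
      transfer (fun w => quadraticChar E (Algebra.trace E L w)) n μ T (by omega) hμ hTo _ (by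
        have := h n hn hdn
        unfold Up at this
        rw [this]
        push_cast
        rfl)
    have h3 := up_gauss h2 (restrict hc hE hd0 hdQ hTo hn hd) ψE
    rw [h1] at h3
    have h4 : gaussSum (T ^ n) (psiL L ψE) =
        ((q : ℕ) : PadicAlgCl p) * gaussSum (chi E (PadicAlgCl p)) ψE := by
      apply mul_left_cancel₀ hQ
      rw [← h3]
      push_cast
      ring
    rw [← h4]
    exact norm_gauss_indep (psiL_prim hψE) hψ (T ^ n)
  intro n hn hdn
  rw [key n hn hdn, key (n + 2 * d) (by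
    obtain ⟨k, hk⟩ := hn
    exact ⟨k + d, by omega⟩) (by
    intro h5
    exact hdn ((Nat.dvd_add_left (Dvd.intro_left 2 rfl)).1 h5))]

/-- The condition on digits follows from maximality. -/
theorem bal_of_maximal (E : Type) [Field E] [Fintype E] [DecidableEq E] [CharP E p]
    (hp : p % 4 = 1) {d q : ℕ} (hd : Odd d) (hd3 : 3 ≤ d) (hq : Fintype.card E = q ^ 2)
    (hA : A d E = ((d - 1 : ℕ) : ℤ) * q) : Bal p d := by
  obtain ⟨F, hF0, hF⟩ := exists_card (p := p) E
  have hE : Fintype.card E % 4 = 1 := by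
    rw [hF, Nat.pow_mod, hp]
    simp
  have : Fintype (FiniteField.Extension E p 2) := Fintype.ofFinite _
  have : DecidableEq (FiniteField.Extension E p 2) := Classical.decEq _
  have hc : Fintype.card (FiniteField.Extension E p 2) = Fintype.card E ^ 2 := by
    have := FiniteField.natCard_extension E p 2
    rwa [Nat.card_eq_fintype_card, Nat.card_eq_fintype_card] at this
  rcases extremal hc hE hd hd3 hq hA with ⟨hN, κ, hκ, h⟩ | ⟨hN, hdQ, μ, hμ, h⟩
  · exact bal_split hE hd hq hN hκ h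
  · exact bal_torus hc hE hd hq hN hdQ hμ h

end Pool.Agent.Q275.Cheb
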