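import Pool.Agent.Q275.Cheb.Final

/-!
# The hyperelliptic curves `y ^ 2 = φ_d(x)` over finite fields
-/

set_option autoImplicit false
set_option linter.unusedSectionVars false

namespace Pool.Agent.Q275.Cheb

open Finset

/-- The number of pairs `(x, y)` in `E` with `y ^ 2 = φ_d(x)`, where `φ_d` is the monic polynomial
of degree `d` with `φ_d(t + 1 / t) = t ^ d + 1 / t ^ d` (the polynomial `Polynomial.Chebyshev.C`
of Mathlib). -/
noncomputable def affinePoints (d : ℕ) (E : Type) [Field E] : ℕ :=
  Nat.card {P : E × E // P.2 ^ 2 = (Polynomial.Chebyshev.C E (d : ℤ)).eval P.1}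

/-- The number of points over `E` of the smooth complete curve with affine model `y ^ 2 = φ_d(x)`:
there is one point at infinity if `d` is odd, and there are two if `d` is even. -/
noncomputable def points (d : ℕ) (E : Type) [Field E] : ℕ :=
  affinePoints d E + if Odd d then 1 else 2

/-- The curve, of genus `(d - 1) / 2` (rounded down), is maximal over the finite field `E`: `E` has
`q ^ 2` elements and the number of points is `q ^ 2 + 1 + 2 g q`. -/
def Maximal (d : ℕ) (E : Type) [Field E] : Prop :=
  ∃ q : ℕ, Nat.card E = q ^ 2 ∧ points d E = q ^ 2 + 1 + 2 * ((d - 1) / 2) * q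

/-- The curve is maximal over some finite field with `p ^ k` elements. -/
def MaximalInChar (d p : ℕ) : Prop :=
  ∃ k : ℕ, 1 ≤ k ∧ ∃ (E : Type) (_ : Field E), Nat.card E = p ^ k ∧ Maximal d E

theorem affine_eq (d : ℕ) (E : Type) [Field E] [Fintype E] [DecidableEq E] (h2 : ringChar E ≠ 2) :
    (affinePoints d E : ℤ) = Fintype.card E + A d E := by
  unfold affinePoints A
  have h1 : Nat.card {P : E × E // P.2 ^ 2 = (Polynomial.Chebyshev.C E (d : ℤ)).eval P.1} =
      ∑ x : E, (univ.filter fun y : E => y ^ 2 = (Polynomial.Chebyshev.C E (d : ℤ)).eval x).card := by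
    rw [Nat.card_eq_fintype_card, Fintype.card_subtype, card_filter,
      ← univ_product_univ, sum_product]
    refine sum_congr rfl fun x _ => ?_
    rw [card_filter]
  rw [h1, Nat.cast_sum]
  have h3 : ∀ x : E, (((univ.filter fun y : E =>
      y ^ 2 = (Polynomial.Chebyshev.C E (d : ℤ)).eval x).card : ℕ) : ℤ) =
      quadraticChar E ((Polynomial.Chebyshev.C E (d : ℤ)).eval x) + 1 := by
    intro x
    rw [← quadraticChar_card_sqrts h2]
    congr 2
    ext y
    simp
  rw [sum_congr rfl fun x _ => h3 x, sum_add_distrib, sum_const, card_univ]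
  simp only [nsmul_eq_mul, mul_one]
  ring

theorem bal_of_maximalInChar {d p : ℕ} (hp : p.Prime) (hp4 : p % 4 = 1) (hd : Odd d) (hd3 : 3 ≤ d)
    (h : MaximalInChar d p) : Bal p d := by
  classical
  have : Fact p.Prime := ⟨hp⟩
  obtain ⟨k, hk, E, hE, hcard, q, hq, hpts⟩ := h
  have hfin : Finite E := Nat.finite_of_card_ne_zero (by
    rw [hcard]; exact pow_ne_zero _ hp.ne_zero)
  have : Fintype E := Fintype.ofFinite E
  have hcardF : Fintype.card E = p ^ k := by rw [← Nat.card_eq_fintype_card, hcard]
  have : CharP E p := charP_of_card_eq_prime_pow hcardF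
  have hqF : Fintype.card E = q ^ 2 := by rw [← Nat.card_eq_fintype_card, hq]
  have h4 : Fintype.card E % 4 = 1 := by
    rw [hcardF, Nat.pow_mod, hp4]
    simp
  apply bal_of_maximal (p := p) E hp4 hd hd3 hqF
  have h5 := affine_eq d E (ringChar_ne h4)
  unfold points at hpts
  rw [if_pos hd] at hpts
  have h6 : 2 * ((d - 1) / 2) = d - 1 := by
    obtain ⟨m, hm⟩ := hd
    omega
  rw [h6] at hpts
  have h7 : (affinePoints d E : ℤ) + 1 = (q : ℤ) ^ 2 + 1 + ((d - 1 : ℕ) : ℤ) * q := by
    exact_mod_cast hpts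
  rw [h5, hqF] at h7
  push_cast at h7 ⊢
  linarith

end Pool.Agent.Q275.Cheb
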