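import Pool.Agent.Q275.Cheb.Transfer

/-!
# The sum of the quadratic character over the values of `φ_d`
-/

set_option autoImplicit false
set_option linter.unusedSectionVars false

namespace Pool.Agent.Q275.Cheb

open Finset Polynomial

variable {E L K : Type} [Field E] [Fintype E] [DecidableEq E] [Field L] [Fintype L] [DecidableEq L]
  [Algebra E L] [Field K] [CharZero K]

/-- `∑ χ(φ_d(x))` -/
noncomputable def A (d : ℕ) (E : Type) [Field E] [Fintype E] [DecidableEq E] : ℤ :=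
  ∑ x : E, quadraticChar E ((Chebyshev.C E (d : ℤ)).eval x)

lemma phi_tor (hc : Fintype.card L = Fintype.card E ^ 2) (d : ℕ) (t : Tor E L) :
    (Chebyshev.C E (d : ℤ)).eval (Algebra.trace E L ((t : Lˣ) : L)) =
      Algebra.trace E L (((t ^ d : Tor E L) : Lˣ) : L) := by
  apply (algebraMap E L).injective
  rw [tr_tor hc, ← Polynomial.eval₂_at_apply, Polynomial.eval₂_eq_eval_map, Chebyshev.map_C]
  rw [show ((algebraMap E L) (Algebra.trace E L ((t : Lˣ) : L))) =
    ((t : Lˣ) : L) + (((t : Lˣ) : L))⁻¹ from tr_tor hc t, eval_C (t : Lˣ).ne_zero]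
  rw [Subgroup.coe_pow, Units.val_pow_eq_pow_val]

theorem two_mul_A (hc : Fintype.card L = Fintype.card E ^ 2) (d : ℕ) :
    2 * (A d E : K) = ∑ t : Eˣ, (quadraticChar E (((t ^ (Nat.gcd d (Fintype.card E - 1)) : Eˣ) : E) +
      (((t ^ (Nat.gcd d (Fintype.card E - 1)) : Eˣ) : E))⁻¹) : K) +
      ∑ t : Tor E L, (quadraticChar E (Algebra.trace E L
        (((t ^ (Nat.gcd d (Fintype.card E + 1)) : Tor E L) : Lˣ) : L)) : K) := by
  have h1 := two_mul_sum (K := K) hc
    (fun x => (quadraticChar E ((Chebyshev.C E (d : ℤ)).eval x) : K))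
  unfold A
  rw [Int.cast_sum, h1]
  congr 1
  · have h2 := sum_pow_gcd (G := Eˣ)
      (fun t => (quadraticChar E ((t : E) + ((t : E))⁻¹) : K)) d
    rw [Fintype.card_units] at h2
    rw [← h2]
    refine sum_congr rfl fun t _ => ?_
    rw [eval_C t.ne_zero, Units.val_pow_eq_pow_val]
  · have h2 := sum_pow_gcd (G := Tor E L)
      (fun t => (quadraticChar E (Algebra.trace E L ((t : Lˣ) : L)) : K)) d
    rw [card_tor hc] at h2
    rw [← h2]
    refine sum_congr rfl fun t _ => ?_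
    rw [phi_tor hc]

theorem decomp (hc : Fintype.card L = Fintype.card E ^ 2) (hE : Fintype.card E % 4 = 1)
    {d a b : ℕ} (hd : Odd d) (ha : a = Nat.gcd d (Fintype.card E - 1))
    (hb : b = Nat.gcd d (Fintype.card E + 1)) {κ : MulChar E K} {μ : MulChar L K}
    (hκ : orderOf κ = 4 * a) (hμ : orderOf μ = 4 * b) :
    ((Fintype.card E - 1 : ℕ) : K) * (2 * (A d E : K)) =
      ((Fintype.card E - 1 : ℕ) : K) * ∑ j ∈ range (2 * a), Jp (κ ^ (a + 2 * j)) +
        ∑ j ∈ range (2 * b), Up E (μ ^ (b + 2 * j)) := by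
  have hd0 : 0 < d := hd.pos
  have ha0 : 0 < a := by rw [ha]; exact Nat.gcd_pos_of_pos_left _ hd0
  have hb0 : 0 < b := by rw [hb]; exact Nat.gcd_pos_of_pos_left _ hd0
  have hbo : Odd b := by
    rw [hb]; exact Odd.of_dvd_nat hd (Nat.gcd_dvd_left _ _)
  have h4a : 4 * a ∣ Fintype.card E - 1 := by
    rw [← hκ]; exact κ.orderOf_dvd_card_sub_one
  rw [two_mul_A hc, ← ha, ← hb, split_part ha0 h4a hκ, mul_add,
    torus_part hc hE hb0 hbo (hb ▸ Nat.gcd_dvd_right _ _) hμ]

end Pool.Agent.Q275.Cheb
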