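import Pool.Agent.Q275.Cheb.Curve

/-!
# The curve `y ^ 2 = φ_4(x)` is maximal over the field with 25 elements
-/

set_option autoImplicit false
set_option linter.unusedSectionVars false

namespace Pool.Agent.Q275.Cheb

open Finset

instance factFive : Fact (Nat.Prime 5) := ⟨by norm_num⟩

instance factTwo : Fact (∀ r : ZMod 5, r ^ 2 ≠ 2 + 0 * r) := ⟨by decide⟩

/-- the field with 25 elements -/
abbrev F25 := QuadraticAlgebra (ZMod 5) 2 0

theorem card_F25 : Nat.card F25 = 25 := by
  rw [Nat.card_congr (QuadraticAlgebra.equivProd (2 : ZMod 5) 0), Nat.card_eq_fintype_card]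
  rfl

theorem affine_four : affinePoints 4 F25 = 34 := by
  unfold affinePoints
  have e : {P : F25 × F25 // P.2 ^ 2 = (Polynomial.Chebyshev.C F25 ((4 : ℕ) : ℤ)).eval P.1} ≃
      {P : (ZMod 5 × ZMod 5) × (ZMod 5 × ZMod 5) //
        P.2.1 * P.2.1 + 2 * (P.2.2 * P.2.2) =
          (P.1.1 * P.1.1 + 2 * (P.1.2 * P.1.2) - 2) * (P.1.1 * P.1.1 + 2 * (P.1.2 * P.1.2) - 2) +
          2 * ((2 * (P.1.1 * P.1.2)) * (2 * (P.1.1 * P.1.2))) - 2 ∧
        2 * (P.2.1 * P.2.2) =
          2 * ((P.1.1 * P.1.1 + 2 * (P.1.2 * P.1.2) - 2) * (2 * (P.1.1 * P.1.2)))} := by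
    refine Equiv.subtypeEquiv ((QuadraticAlgebra.equivProd (2 : ZMod 5) 0).prodCongr
      (QuadraticAlgebra.equivProd (2 : ZMod 5) 0)) ?_
    rintro ⟨x, y⟩
    have h1 : (Polynomial.Chebyshev.C F25 ((4 : ℕ) : ℤ)).eval x = (x ^ 2 - 2) ^ 2 - 2 := by
      have h2 := Polynomial.Chebyshev.C_mul F25 2 2
      have h3 : ((4 : ℕ) : ℤ) = 2 * 2 := by norm_num
      rw [h3, h2, Polynomial.Chebyshev.C_two, Polynomial.eval_comp]
      simp
    rw [h1, QuadraticAlgebra.ext_iff]
    simp only [pow_two, QuadraticAlgebra.re_mul, QuadraticAlgebra.im_mul, QuadraticAlgebra.re_sub,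
      QuadraticAlgebra.im_sub, Equiv.prodCongr_apply, Prod.map_apply, QuadraticAlgebra.equivProd,
      Equiv.coe_fn_mk, QuadraticAlgebra.re_ofNat, QuadraticAlgebra.im_ofNat]
    constructor
    · rintro ⟨ha, hb⟩
      constructor
      · linear_combination ha
      · linear_combination hb
    · rintro ⟨ha, hb⟩
      constructor
      · linear_combination ha
      · linear_combination hb
  rw [Nat.card_congr e, Nat.card_eq_fintype_card]
  decide +kernel

theorem maximal_four : MaximalInChar 4 5 := by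
  refine ⟨2, by norm_num, F25, inferInstance, by rw [card_F25]; norm_num, 5,
    by rw [card_F25]; norm_num, ?_⟩
  unfold points
  rw [affine_four, if_neg (by decide)]
  norm_num

end Pool.Agent.Q275.Cheb
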