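import Pool.Agent.Q275.Cheb.Decomp

/-!
# The extremal case
-/

set_option autoImplicit false
set_option linter.unusedSectionVars false

namespace Pool.Agent.Q275.Cheb

open Finset Polynomial

lemma A_one {E : Type} [Field E] [Fintype E] [DecidableEq E] (h2 : ringChar E ≠ 2) : A 1 E = 0 := by
  unfold A
  have := quadraticChar_sum_zero h2
  rw [← this]
  refine sum_congr rfl fun x _ => ?_
  simp

lemma pow_ne_one_of_odd {G : Type*} [Group G] {κ : G} {a n : ℕ} (h : orderOf κ = 4 * a)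
    (hn : Odd n) : κ ^ n ≠ 1 ∧ (κ ^ n) ^ 2 ≠ 1 := by
  obtain ⟨k, rfl⟩ := hn
  constructor
  · intro h1
    obtain ⟨c, hc⟩ := orderOf_dvd_of_pow_eq_one h1
    rw [h] at hc
    have : 4 * a * c = 2 * (2 * a * c) := by ring
    omega
  · intro h1
    rw [← pow_mul] at h1
    obtain ⟨c, hc⟩ := orderOf_dvd_of_pow_eq_one h1
    rw [h] at hc
    have : 4 * a * c = 4 * (a * c) := by ring
    omega

lemma sum_split {M : Type*} [AddCommMonoid M] {a : ℕ} (ha : 0 < a) (f : ℕ → M) :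
    ∑ j ∈ range (2 * a), f j = f 0 + (f a + ∑ j ∈ ((range (2 * a)).erase 0).erase a, f j) := by
  rw [add_sum_erase _ _ (mem_erase.2 ⟨ha.ne', mem_range.2 (by omega)⟩),
    add_sum_erase _ _ (mem_range.2 (by omega))]

lemma card_split {a : ℕ} (ha : 0 < a) : (((range (2 * a)).erase 0).erase a).card = 2 * a - 2 := by
  rw [card_erase_of_mem (mem_erase.2 ⟨ha.ne', mem_range.2 (by omega)⟩),
    card_erase_of_mem (mem_range.2 (by omega)), card_range]
  omega

variable {E L : Type} [Field E] [Fintype E] [DecidableEq E] [Field L] [Fintype L] [DecidableEq L]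
  [Algebra E L]

theorem decomp' (hc : Fintype.card L = Fintype.card E ^ 2) (hE : Fintype.card E % 4 = 1)
    {d a b : ℕ} (hd : Odd d) (ha : a = Nat.gcd d (Fintype.card E - 1))
    (hb : b = Nat.gcd d (Fintype.card E + 1)) {κ : MulChar E ℂ} {μ : MulChar L ℂ}
    (hκ : orderOf κ = 4 * a) (hμ : orderOf μ = 4 * b) :
    ((Fintype.card E - 1 : ℕ) : ℂ) * (2 * (A d E : ℂ)) =
      ((Fintype.card E - 1 : ℕ) : ℂ) *
        ∑ j ∈ ((range (2 * a)).erase 0).erase a, Jp (κ ^ (a + 2 * j)) +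
        ∑ j ∈ ((range (2 * b)).erase 0).erase b, Up E (μ ^ (b + 2 * j)) := by
  have hd0 : 0 < d := hd.pos
  have ha0 : 0 < a := by rw [ha]; exact Nat.gcd_pos_of_pos_left _ hd0
  have hb0 : 0 < b := by rw [hb]; exact Nat.gcd_pos_of_pos_left _ hd0
  have h1 := decomp (K := ℂ) hc hE hd ha hb hκ hμ
  have hκ1 : orderOf (κ ^ a) = 4 * 1 := by
    rw [orderOf_pow_of_dvd ha0.ne' (by rw [hκ]; exact Dvd.intro_left _ rfl), hκ,
      Nat.mul_div_cancel _ ha0]
  have hμ1 : orderOf (μ ^ b) = 4 * 1 := by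
    rw [orderOf_pow_of_dvd hb0.ne' (by rw [hμ]; exact Dvd.intro_left _ rfl), hμ,
      Nat.mul_div_cancel _ hb0]
  have h2 := decomp (K := ℂ) hc hE odd_one (Nat.gcd_one_left _).symm (Nat.gcd_one_left _).symm
    hκ1 hμ1
  rw [A_one (ringChar_ne hE), Int.cast_zero, mul_zero, mul_zero, mul_one, sum_range_succ,
    sum_range_one, sum_range_succ, sum_range_one] at h2
  simp only [mul_zero, mul_one, add_zero, pow_one] at h2
  rw [sum_split ha0, sum_split hb0] at h1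
  rw [h1]
  have h3 : κ ^ (a + 2 * a) = (κ ^ a) ^ (1 + 2) := by rw [← pow_mul]; congr 1; ring
  have h4 : μ ^ (b + 2 * b) = (μ ^ b) ^ (1 + 2) := by rw [← pow_mul]; congr 1; ring
  rw [h3, h4]
  simp only [mul_zero, add_zero]
  linear_combination -h2

lemma norm_Jp {κ : MulChar E ℂ} {a n q : ℕ} (hE : Fintype.card E % 4 = 1)
    (hq : Fintype.card E = q ^ 2) (hκ : orderOf κ = 4 * a) (hn : Odd n) :
    ‖Jp (κ ^ n)‖ = q := by
  obtain ⟨h1, h2⟩ := pow_ne_one_of_odd hκ hn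
  have h3 : κ ^ n * chi E ℂ ≠ 1 := by
    intro h
    apply h2
    have h4 : chi E ℂ * chi E ℂ = 1 := by
      ext u
      rw [MulChar.mul_apply, MulChar.one_apply_coe, chi_apply, ← Int.cast_mul, quad_sq]
      simp
    have h5 : (κ ^ n) ^ 2 * (chi E ℂ * chi E ℂ) = 1 := by
      rw [pow_two, mul_mul_mul_comm, h, one_mul]
    rwa [h4, mul_one] at h5
  have h4 := norm_Jp_sq h1 h3 (ringChar_ne hE)
  rw [hq] at h4
  push_cast at h4
  exact (pow_left_inj₀ (norm_nonneg _) (Nat.cast_nonneg q) two_ne_zero).1 h4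

lemma exists_prim (E : Type) [Field E] [Fintype E] : ∃ ψ : AddChar E ℂ, ψ.IsPrimitive := by
  obtain ⟨ψ, hψ⟩ := (AddChar.exists_apply_ne_zero (α := E)).2 (one_ne_zero)
  refine ⟨ψ, AddChar.IsPrimitive.of_ne_one ?_⟩
  rintro rfl
  exact hψ rfl

lemma norm_Up (hc : Fintype.card L = Fintype.card E ^ 2) {μ : MulChar L ℂ} {b n q : ℕ}
    (hE : Fintype.card E % 4 = 1) (hb : 0 < b) (hbo : Odd b) (hbQ : b ∣ Fintype.card E + 1)
    (hq : Fintype.card E = q ^ 2) (hμ : orderOf μ = 4 * b) (hn : Odd n) :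
    ‖Up E (μ ^ n)‖ = ((Fintype.card E - 1 : ℕ) : ℝ) * q := by
  obtain ⟨ψ, hψ⟩ := exists_prim E
  have h1 := up_gauss (ringChar_ne hE) (restrict hc hE hb hbQ hμ hn hbo) ψ
  have h2 := congrArg norm h1
  rw [norm_mul, norm_mul] at h2
  have h3 : ‖gaussSum (chi E ℂ) ψ‖ = q := by
    have h4 := norm_gauss_sq (chi_ne_one (K := ℂ) (ringChar_ne hE)) hψ
    rw [hq] at h4
    push_cast at h4
    exact (pow_left_inj₀ (norm_nonneg _) (Nat.cast_nonneg q) two_ne_zero).1 h4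
  have h5 : ‖gaussSum (μ ^ n) (psiL L ψ)‖ = (q : ℝ) * q := by
    have h4 := norm_gauss_sq (pow_ne_one_of_odd hμ hn).1 (psiL_prim (L := L) hψ)
    rw [hc, hq] at h4
    push_cast at h4
    rw [pow_two (q : ℝ)] at h4
    exact (pow_left_inj₀ (norm_nonneg _) (by positivity) two_ne_zero).1 h4
  rw [h3, h5, Complex.norm_natCast] at h2
  have hq0 : (q : ℝ) ≠ 0 := by
    have : Fintype.card E ≠ 0 := Fintype.card_ne_zero
    rw [hq] at this
    have h6 : q ≠ 0 := by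
      rintro rfl
      exact this (by norm_num)
    exact_mod_cast h6
  exact mul_right_cancel₀ hq0 (by rw [h2]; ring)

lemma exists_order {F : Type} [Field F] [Fintype F] {N : ℕ} (hN : N ∣ Fintype.card F - 1)
    (hN0 : N ≠ 0) : ∃ κ : MulChar F ℂ, orderOf κ = N :=
  MulChar.exists_mulChar_orderOf F hN (Complex.isPrimitiveRoot_exp N hN0)

lemma arith {d a b Q : ℕ} (hQ : 1 < Q) (hd : Odd d) (hd3 : 3 ≤ d) (ha : a = Nat.gcd d (Q - 1))
    (hb : b = Nat.gcd d (Q + 1)) (h : d + 1 ≤ a + b) : (a = d ∧ b = 1) ∨ (a = 1 ∧ b = d) := by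
  have had : a ∣ d := ha ▸ Nat.gcd_dvd_left _ _
  have hbd : b ∣ d := hb ▸ Nat.gcd_dvd_left _ _
  have haQ : a ∣ Q - 1 := ha ▸ Nat.gcd_dvd_right _ _
  have hbQ : b ∣ Q + 1 := hb ▸ Nat.gcd_dvd_right _ _
  have hcop : Nat.Coprime a b := by
    have h1 : Nat.gcd a b ∣ 2 := by
      have h2 : Nat.gcd a b ∣ Q - 1 := (Nat.gcd_dvd_left _ _).trans haQ
      have h3 : Nat.gcd a b ∣ Q + 1 := (Nat.gcd_dvd_right _ _).trans hbQ
      have h4 := Nat.dvd_sub h3 h2
      have h5 : Q + 1 - (Q - 1) = 2 := by omega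
      rwa [h5] at h4
    have h2 : Odd (Nat.gcd a b) := Odd.of_dvd_nat hd ((Nat.gcd_dvd_left _ _).trans had)
    rcases (Nat.dvd_prime Nat.prime_two).1 h1 with h3 | h3
    · exact h3
    · rw [h3] at h2
      exact absurd h2 (by decide)
  have hab : a * b ∣ d := hcop.mul_dvd_of_dvd_of_dvd had hbd
  have hab' := Nat.le_of_dvd (by omega) hab
  have ha' := Nat.le_of_dvd (by omega) had
  have hb' := Nat.le_of_dvd (by omega) hbd
  have ha0 : 0 < a := Nat.pos_of_dvd_of_pos had (by omega)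
  have hb0 : 0 < b := Nat.pos_of_dvd_of_pos hbd (by omega)
  by_cases h1 : a = 1
  · right
    exact ⟨h1, by omega⟩
  · by_cases h2 : b = 1
    · left
      exact ⟨by omega, h2⟩
    · exfalso
      have h3 : 2 ≤ a := by omega
      have h4 : 2 ≤ b := by omega
      have h5 : a + b ≤ a * b := by nlinarith
      omega

lemma exists_index {d n : ℕ} (hd : Odd d) (hn : Odd n) (hdn : ¬ d ∣ n) :
    ∃ j ∈ ((range (2 * d)).erase 0).erase d, (d + 2 * j) ≡ n [MOD 4 * d] := by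
  have hd0 := hd.pos
  obtain ⟨k, hk⟩ := hd
  obtain ⟨m, hm⟩ := hn
  set j := (m + 3 * k + 2) % (2 * d) with hj
  have h0 : (d + 2 * j) ≡ n [MOD 4 * d] := by
    have h1 : 2 * j ≡ 2 * (m + 3 * k + 2) [MOD 4 * d] := by
      have h2 : j ≡ m + 3 * k + 2 [MOD 2 * d] := Nat.mod_modEq _ _
      have h3 := h2.mul_left' 2
      rwa [← mul_assoc] at h3
    have h2 := h1.add_left d
    refine h2.trans ?_
    have h3 : d + 2 * (m + 3 * k + 2) = n + 4 * d := by omega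
    rw [h3]
    simp [Nat.ModEq]
  refine ⟨j, mem_erase.2 ⟨?_, mem_erase.2 ⟨?_, mem_range.2 (Nat.mod_lt _ (by omega))⟩⟩, h0⟩
  · intro h
    rw [h] at h0
    apply hdn
    have h1 : d ∣ d + 2 * d := ⟨3, by ring⟩
    exact ((h0.of_dvd (Dvd.intro_left 4 rfl : d ∣ 4 * d)).dvd_iff (dvd_refl d)).1 h1
  · intro h
    rw [h] at h0
    apply hdn
    have h1 : d ∣ d + 2 * 0 := ⟨1, by ring⟩
    exact ((h0.of_dvd (Dvd.intro_left 4 rfl : d ∣ 4 * d)).dvd_iff (dvd_refl d)).1 h1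

theorem extremal (hc : Fintype.card L = Fintype.card E ^ 2) (hE : Fintype.card E % 4 = 1)
    {d q : ℕ} (hd : Odd d) (hd3 : 3 ≤ d) (hq : Fintype.card E = q ^ 2)
    (hA : A d E = ((d - 1 : ℕ) : ℤ) * q) :
    (4 * d ∣ Fintype.card E - 1 ∧ ∃ κ : MulChar E ℂ, orderOf κ = 4 * d ∧
      ∀ n : ℕ, Odd n → ¬ d ∣ n → Jp (κ ^ n) = (q : ℂ)) ∨
    (4 * d ∣ Fintype.card L - 1 ∧ d ∣ Fintype.card E + 1 ∧ ∃ μ : MulChar L ℂ, orderOf μ = 4 * d ∧
      ∀ n : ℕ, Odd n → ¬ d ∣ n → Up E (μ ^ n) = ((Fintype.card E - 1 : ℕ) : ℂ) * q) := by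
  have hQ1 : 1 < Fintype.card E := Fintype.one_lt_card
  have hd0 : 0 < d := hd.pos
  obtain ⟨a, ha⟩ : ∃ a, a = Nat.gcd d (Fintype.card E - 1) := ⟨_, rfl⟩
  obtain ⟨b, hb⟩ : ∃ b, b = Nat.gcd d (Fintype.card E + 1) := ⟨_, rfl⟩
  have ha0 : 0 < a := by rw [ha]; exact Nat.gcd_pos_of_pos_left _ hd0
  have hb0 : 0 < b := by rw [hb]; exact Nat.gcd_pos_of_pos_left _ hd0
  have hao : Odd a := by rw [ha]; exact Odd.of_dvd_nat hd (Nat.gcd_dvd_left _ _)
  have hbo : Odd b := by rw [hb]; exact Odd.of_dvd_nat hd (Nat.gcd_dvd_left _ _)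
  have haQ : a ∣ Fintype.card E - 1 := ha ▸ Nat.gcd_dvd_right _ _
  have hbQ : b ∣ Fintype.card E + 1 := hb ▸ Nat.gcd_dvd_right _ _
  have hcop4 : ∀ {c : ℕ}, Odd c → Nat.Coprime 4 c := fun {c} hc => by
    have : Nat.Coprime (2 ^ 2) c := Nat.Coprime.pow_left 2 (Nat.coprime_two_left.2 hc)
    exact this
  have h4a : 4 * a ∣ Fintype.card E - 1 :=
    (hcop4 hao).mul_dvd_of_dvd_of_dvd (by omega) haQ
  have hL : Fintype.card L - 1 = (Fintype.card E + 1) * (Fintype.card E - 1) := by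
    rw [← card_units_L hc, Fintype.card_units]
  have h4b : 4 * b ∣ Fintype.card L - 1 := by
    rw [hL, mul_comm]
    exact mul_dvd_mul hbQ (by omega)
  obtain ⟨κ, hκ⟩ := exists_order h4a (by omega)
  obtain ⟨μ, hμ⟩ := exists_order h4b (by omega)
  have hdec := decomp' hc hE hd ha hb hκ hμ
  have hQ1' : (0 : ℝ) < ((Fintype.card E - 1 : ℕ) : ℝ) := by
    exact_mod_cast (by omega : 0 < Fintype.card E - 1)
  have hq0 : 0 < q := by
    rcases Nat.eq_zero_or_pos q with h | h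
    · rw [h] at hq; simp at hq
    · exact h
  have hq0' : (0 : ℝ) < q := by exact_mod_cast hq0
  have hJ : ∀ j ∈ ((range (2 * a)).erase 0).erase a, ‖Jp (κ ^ (a + 2 * j))‖ ≤ q := fun j _ =>
    (norm_Jp hE hq hκ (by
      obtain ⟨k, hk⟩ := hao
      exact ⟨k + j, by omega⟩)).le
  have hU : ∀ j ∈ ((range (2 * b)).erase 0).erase b, ‖Up E (μ ^ (b + 2 * j))‖ ≤
      ((Fintype.card E - 1 : ℕ) : ℝ) * q := fun j _ =>
    (norm_Up hc hE hb0 hbo hbQ hq hμ (by
      obtain ⟨k, hk⟩ := hbo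
      exact ⟨k + j, by omega⟩)).le
  have hineq : d + 1 ≤ a + b := by
    have h1 := congrArg norm hdec
    have h2 : ‖((Fintype.card E - 1 : ℕ) : ℂ) * (2 * (A d E : ℂ))‖ =
        ((Fintype.card E - 1 : ℕ) : ℝ) * (2 * (((d - 1 : ℕ) : ℝ) * q)) := by
      rw [hA, norm_mul, Complex.norm_natCast]
      congr 1
      push_cast
      rw [norm_mul, norm_mul, Complex.norm_natCast, Complex.norm_natCast]
      norm_num
    rw [h2] at h1
    have h3 := (h1.le).trans (norm_add_le _ _)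
    rw [norm_mul, Complex.norm_natCast] at h3
    have h4 := norm_sum_le_of_le _ hJ
    have h5 := norm_sum_le_of_le _ hU
    rw [sum_const, card_split ha0, nsmul_eq_mul] at h4
    rw [sum_const, card_split hb0, nsmul_eq_mul] at h5
    have h6 := mul_le_mul_of_nonneg_left h4 hQ1'.le
    have h7 : ((Fintype.card E - 1 : ℕ) : ℝ) * (2 * (((d - 1 : ℕ) : ℝ) * q)) ≤
        ((Fintype.card E - 1 : ℕ) : ℝ) * (((2 * a - 2 : ℕ) : ℝ) * q) +
          ((2 * b - 2 : ℕ) : ℝ) * (((Fintype.card E - 1 : ℕ) : ℝ) * q) := by linarith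
    have h8 : (((Fintype.card E - 1 : ℕ) : ℝ) * q) * (2 * ((d - 1 : ℕ) : ℝ)) ≤
        (((Fintype.card E - 1 : ℕ) : ℝ) * q) * (((2 * a - 2 : ℕ) : ℝ) + ((2 * b - 2 : ℕ) : ℝ)) := by
      linarith
    have h9 := le_of_mul_le_mul_left h8 (mul_pos hQ1' hq0')
    have h10 : 2 * (d - 1) ≤ (2 * a - 2) + (2 * b - 2) := by exact_mod_cast h9
    omega
  rcases arith hQ1 hd hd3 ha hb hineq with ⟨h1, h2⟩ | ⟨h1, h2⟩
  · left
    subst h1
    refine ⟨h4a, κ, hκ, ?_⟩
    have h3 : ((range (2 * b)).erase 0).erase b = ∅ := by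
      rw [← card_eq_zero, card_split hb0, h2]
    rw [h3, sum_empty, add_zero] at hdec
    have h4 := mul_left_cancel₀ (by exact_mod_cast (by omega : Fintype.card E - 1 ≠ 0)) hdec
    have h5 := eq_of_sum hJ (by
      rw [← h4, hA, card_split ha0]
      have : 2 * a - 2 = 2 * (a - 1) := by omega
      rw [this]
      push_cast
      ring)
    intro n hn hdn
    obtain ⟨j, hj, hjn⟩ := exists_index hd hn hdn
    have h6 := h5 j hj
    have h7 : κ ^ (a + 2 * j) = κ ^ n := by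
      rw [pow_eq_pow_iff_modEq, hκ]
      exact hjn
    rw [← h7, h6]
    simp
  · right
    subst h2
    refine ⟨h4b, hbQ, μ, hμ, ?_⟩
    have h3 : ((range (2 * a)).erase 0).erase a = ∅ := by
      rw [← card_eq_zero, card_split ha0, h1]
    rw [h3, sum_empty, mul_zero, zero_add] at hdec
    have h5 := eq_of_sum hU (by
      rw [← hdec, hA, card_split hb0]
      have : 2 * b - 2 = 2 * (b - 1) := by omega
      rw [this]
      push_cast
      ring)
    intro n hn hdn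
    obtain ⟨j, hj, hjn⟩ := exists_index hd hn hdn
    have h6 := h5 j hj
    have h7 : μ ^ (b + 2 * j) = μ ^ n := by
      rw [pow_eq_pow_iff_modEq, hμ]
      exact hjn
    rw [← h7, h6]
    push_cast
    rfl

end Pool.Agent.Q275.Cheb
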