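import Pool.Agent.Q275.Cheb.Group

/-!
# Parametrization of a finite field by its multiplicative group and the norm-one torus
-/

set_option autoImplicit false
set_option linter.unusedSectionVars false

namespace Pool.Agent.Q275.Cheb

open Finset

variable {E L : Type} [Field E] [Fintype E] [DecidableEq E] [Field L] [Fintype L] [DecidableEq L]
  [Algebra E L]

/-- the elements of `L` of norm one -/
abbrev Tor (E L : Type) [Fintype E] [Field L] : Subgroup Lˣ :=
  (powMonoidHom (Fintype.card E + 1) : Lˣ →* Lˣ).ker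

lemma tor_pow (t : Tor E L) : ((t : Lˣ) : L) ^ (Fintype.card E + 1) = 1 := by
  have h := t.2
  rw [MonoidHom.mem_ker, powMonoidHom_apply] at h
  have h2 := congrArg (fun u : Lˣ => (u : L)) h
  simpa using h2

lemma card_units_L (hc : Fintype.card L = Fintype.card E ^ 2) :
    Fintype.card Lˣ = (Fintype.card E + 1) * (Fintype.card E - 1) := by
  rw [Fintype.card_units, hc]
  have h1 : 1 < Fintype.card E := Fintype.one_lt_card
  obtain ⟨k, hk⟩ : ∃ k, Fintype.card E = k + 1 := ⟨Fintype.card E - 1, by omega⟩
  rw [hk, Nat.add_sub_cancel]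
  have : (k + 1) ^ 2 = (k + 1 + 1) * k + 1 := by ring
  omega

lemma card_tor (hc : Fintype.card L = Fintype.card E ^ 2) :
    Fintype.card (Tor E L) = Fintype.card E + 1 := by
  rw [← Nat.card_eq_fintype_card, IsCyclic.card_powMonoidHom_ker, Nat.card_eq_fintype_card,
    card_units_L hc, Nat.gcd_eq_right (Dvd.intro _ rfl)]

lemma finrank_two (hc : Fintype.card L = Fintype.card E ^ 2) : Module.finrank E L = 2 := by
  have h3 := Module.card_eq_pow_finrank (K := E) (V := L)
  rw [hc] at h3
  exact (Nat.pow_right_injective (Fintype.one_lt_card (α := E)) h3).symm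

lemma tr_eq (hc : Fintype.card L = Fintype.card E ^ 2) (x : L) :
    algebraMap E L (Algebra.trace E L x) = x + x ^ Fintype.card E := by
  have h1 := FiniteField.algebraMap_trace_eq_sum_pow E L x
  rw [h1, finrank_two hc, sum_range_succ, sum_range_one, Nat.card_eq_fintype_card]
  simp

lemma tr_tor (hc : Fintype.card L = Fintype.card E ^ 2) (t : Tor E L) :
    algebraMap E L (Algebra.trace E L ((t : Lˣ) : L)) = ((t : Lˣ) : L) + (((t : Lˣ) : L))⁻¹ := by
  rw [tr_eq hc]
  congr 1
  have h1 := tor_pow t
  rw [pow_succ] at h1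
  exact eq_inv_of_mul_eq_one_left h1

lemma eq_or_inv {F : Type} [Field F] {s t : F} (hs : s ≠ 0) (ht : t ≠ 0)
    (h : s + s⁻¹ = t + t⁻¹) : s = t ∨ s = t⁻¹ := by
  have h1 : (s - t) * (s - t⁻¹) = 0 := by
    field_simp at h ⊢
    linear_combination h
  rcases mul_eq_zero.1 h1 with h2 | h2
  · exact Or.inl (sub_eq_zero.1 h2)
  · exact Or.inr (sub_eq_zero.1 h2)

lemma fiber_le (hc : Fintype.card L = Fintype.card E ^ 2) (x : E) :
    ((univ : Finset Eˣ).filter fun t : Eˣ => (t : E) + (t : E)⁻¹ = x).card +
      ((univ : Finset (Tor E L)).filter fun t : Tor E L => Algebra.trace E L ((t : Lˣ) : L) = x).card ≤ 2 := by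
  have h1 : ∀ t : Eˣ, (t : E) + (t : E)⁻¹ = x →
      ((univ : Finset Eˣ).filter fun t : Eˣ => (t : E) + (t : E)⁻¹ = x) ⊆ {t, t⁻¹} := by
    intro t ht s hs
    rw [mem_filter] at hs
    rw [mem_insert, mem_singleton]
    rcases eq_or_inv s.ne_zero t.ne_zero (hs.2.trans ht.symm) with h | h
    · exact Or.inl (Units.ext h)
    · exact Or.inr (Units.ext (by rw [h, Units.val_inv_eq_inv_val]))
  have h2 : ∀ t : Tor E L, Algebra.trace E L ((t : Lˣ) : L) = x →
      ((univ : Finset (Tor E L)).filter fun t : Tor E L => Algebra.trace E L ((t : Lˣ) : L) = x) ⊆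
        {t, t⁻¹} := by
    intro t ht s hs
    rw [mem_filter] at hs
    rw [mem_insert, mem_singleton]
    have h3 := congrArg (algebraMap E L) (hs.2.trans ht.symm)
    rw [tr_tor hc, tr_tor hc] at h3
    rcases eq_or_inv (s : Lˣ).ne_zero (t : Lˣ).ne_zero h3 with h | h
    · exact Or.inl (Subtype.ext (Units.ext h))
    · exact Or.inr (Subtype.ext (Units.ext (by rw [h, Subgroup.coe_inv, Units.val_inv_eq_inv_val])))
  rcases ((univ : Finset Eˣ).filter fun t : Eˣ => (t : E) + (t : E)⁻¹ = x).eq_empty_or_nonempty with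
    h3 | ⟨t, ht⟩
  · rw [h3, card_empty, zero_add]
    rcases ((univ : Finset (Tor E L)).filter
      fun t : Tor E L => Algebra.trace E L ((t : Lˣ) : L) = x).eq_empty_or_nonempty with h4 | ⟨s, hs⟩
    · rw [h4, card_empty]; omega
    · exact (card_le_card (h2 s (mem_filter.1 hs).2)).trans card_le_two
  · rcases ((univ : Finset (Tor E L)).filter
      fun t : Tor E L => Algebra.trace E L ((t : Lˣ) : L) = x).eq_empty_or_nonempty with h4 | ⟨s, hs⟩
    · rw [h4, card_empty, add_zero]
      exact (card_le_card (h1 t (mem_filter.1 ht).2)).trans card_le_two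
    · have ht' := (mem_filter.1 ht).2
      have hs' := (mem_filter.1 hs).2
      have h5 := congrArg (algebraMap E L) (hs'.trans ht'.symm)
      rw [tr_tor hc, map_add, map_inv₀] at h5
      have ht0 : algebraMap E L (t : E) ≠ 0 := by
        rw [Ne, map_eq_zero_iff _ (algebraMap E L).injective]
        exact t.ne_zero
      have h6 : ((s : Lˣ) : L) ^ Fintype.card E = ((s : Lˣ) : L) := by
        rcases eq_or_inv (s : Lˣ).ne_zero ht0 h5 with h | h
        · rw [h, ← map_pow, FiniteField.pow_card]
        · rw [h, inv_pow, ← map_pow, FiniteField.pow_card]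
      have h7 : ((s : Lˣ) : L) * ((s : Lˣ) : L) = 1 := by
        have h8 := tor_pow s
        rw [pow_succ, h6] at h8
        exact h8
      have h8 : s⁻¹ = s := by
        apply Subtype.ext
        apply Units.ext
        rw [Subgroup.coe_inv, Units.val_inv_eq_inv_val]
        exact (eq_inv_of_mul_eq_one_left h7).symm
      have h9 : algebraMap E L (t : E) * algebraMap E L (t : E) = 1 := by
        rcases eq_or_inv (s : Lˣ).ne_zero ht0 h5 with h | h
        · rw [← h]; exact h7
        · rw [h, ← mul_inv, inv_eq_one] at h7; exact h7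
      have h10 : t⁻¹ = t := by
        apply Units.ext
        rw [Units.val_inv_eq_inv_val]
        rw [← map_mul, ← map_one (algebraMap E L)] at h9
        exact (eq_inv_of_mul_eq_one_left ((algebraMap E L).injective h9)).symm
      have h11 := card_le_card (h1 t ht')
      have h12 := card_le_card (h2 s hs')
      rw [h10, pair_eq_singleton, card_singleton] at h11
      rw [h8, pair_eq_singleton, card_singleton] at h12
      omega

lemma fiber_eq (hc : Fintype.card L = Fintype.card E ^ 2) (x : E) :
    ((univ : Finset Eˣ).filter fun t : Eˣ => (t : E) + (t : E)⁻¹ = x).card +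
      ((univ : Finset (Tor E L)).filter fun t : Tor E L => Algebra.trace E L ((t : Lˣ) : L) = x).card = 2 := by
  have h1 : 1 < Fintype.card E := Fintype.one_lt_card
  have hs : ∑ x : E, (((univ : Finset Eˣ).filter fun t : Eˣ => (t : E) + (t : E)⁻¹ = x).card +
      ((univ : Finset (Tor E L)).filter fun t : Tor E L => Algebra.trace E L ((t : Lˣ) : L) = x).card) =
      ∑ x : E, 2 := by
    rw [sum_add_distrib, ← card_eq_sum_card_fiberwise (fun _ _ => mem_univ _),
      ← card_eq_sum_card_fiberwise (fun _ _ => mem_univ _), card_univ, card_univ, card_tor hc,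
      Fintype.card_units, sum_const, card_univ, smul_eq_mul]
    omega
  exact (sum_eq_sum_iff_of_le (fun x _ => fiber_le hc x)).1 hs x (mem_univ x)

theorem two_mul_sum {K : Type} [Field K] (hc : Fintype.card L = Fintype.card E ^ 2) (f : E → K) :
    2 * ∑ x, f x = ∑ t : Eˣ, f ((t : E) + (t : E)⁻¹) +
      ∑ t : Tor E L, f (Algebra.trace E L ((t : Lˣ) : L)) := by
  have h1 : ∑ t : Eˣ, f ((t : E) + (t : E)⁻¹) =
      ∑ x : E, (((univ : Finset Eˣ).filter fun t : Eˣ => (t : E) + (t : E)⁻¹ = x).card : K) * f x := by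
    rw [← sum_fiberwise_of_maps_to (s := univ) (t := univ) (g := fun t : Eˣ => (t : E) + (t : E)⁻¹)
      (fun _ _ => mem_univ _)]
    refine sum_congr rfl fun w _ => ?_
    rw [sum_congr rfl (g := fun _ => f w) (fun t ht => by rw [(mem_filter.1 ht).2]), sum_const,
      nsmul_eq_mul]
  have h2 : ∑ t : Tor E L, f (Algebra.trace E L ((t : Lˣ) : L)) =
      ∑ x : E, (((univ : Finset (Tor E L)).filter
        fun t : Tor E L => Algebra.trace E L ((t : Lˣ) : L) = x).card : K) * f x := by
    rw [← sum_fiberwise_of_maps_to (s := univ) (t := univ)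
      (g := fun t : Tor E L => Algebra.trace E L ((t : Lˣ) : L)) (fun _ _ => mem_univ _)]
    refine sum_congr rfl fun w _ => ?_
    rw [sum_congr rfl (g := fun _ => f w) (fun t ht => by rw [(mem_filter.1 ht).2]), sum_const,
      nsmul_eq_mul]
  rw [h1, h2, ← sum_add_distrib, mul_sum]
  refine sum_congr rfl fun x _ => ?_
  rw [← add_mul, ← Nat.cast_add, fiber_eq hc]
  norm_num

/-- the polynomials `φ_d` on `t + 1 / t` -/
lemma eval_C {F : Type} [Field F] {t : F} (ht : t ≠ 0) (d : ℕ) :
    (Polynomial.Chebyshev.C F (d : ℤ)).eval (t + t⁻¹) = t ^ d + (t ^ d)⁻¹ := by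
  induction d using Nat.strong_induction_on with
  | _ d ih =>
    match d with
    | 0 => simp; norm_num
    | 1 => simp
    | (n + 2) =>
      have h1 := Polynomial.Chebyshev.C_add_two F (n : ℤ)
      have h2 := ih n (by omega)
      have h3 := ih (n + 1) (by omega)
      push_cast at h3 ⊢
      rw [h1, Polynomial.eval_sub, Polynomial.eval_mul, h2, h3, Polynomial.eval_X]
      have : t ^ n ≠ 0 := pow_ne_zero _ ht
      field_simp
      ring

end Pool.Agent.Q275.Cheb
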