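import Pool.Agent.Q275.Cheb.NoChar

/-!
# Consequences
-/

set_option autoImplicit false
set_option linter.unusedSectionVars false

namespace Pool.Agent.Q275.Cheb

open Finset Pool.Agent.Y145.DI Pool.Agent.H916R2

/-- there are no nontrivial even characters modulo `d` trivial on `p` -/
theorem no_even {p d : ℕ} (hd3 : 3 ≤ d) (hd : Odd d) (hp : p % 4 = 1) (hbal : Bal p d)
    (η : DirichletCharacter ℂ d) (hη1 : η (-1) = 1) (hηp : η (p : ZMod d) = 1) (hη : η ≠ 1) :
    False := by
  have : NeZero d := ⟨by omega⟩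
  set χ4 : DirichletCharacter ℂ 4 := ZMod.χ₄.ringHomComp (Int.castRingHom ℂ) with hχ4
  have hχ4v : ∀ a : ZMod 4, χ4 a = ((ZMod.χ₄ a : ℤ) : ℂ) := fun a => rfl
  set θ : DirichletCharacter ℂ (4 * d) := DirichletCharacter.changeLevel (Dvd.intro d rfl) χ4 *
    DirichletCharacter.changeLevel (Dvd.intro_left 4 rfl) η with hθ
  have hval : ∀ u : (ZMod (4 * d))ˣ, θ u = χ4 (r4 d u) * η (rd d u) := by
    intro u
    rw [hθ, MulChar.mul_apply, DirichletCharacter.changeLevel_eq_cast_of_dvd,
      DirichletCharacter.changeLevel_eq_cast_of_dvd]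
    rfl
  obtain ⟨F, hF0, hN, hb⟩ := hbal
  have hpF : (p : ZMod (4 * d)) ^ F = 1 := by
    have h3 : ((p ^ F - 1 : ℕ) : ZMod (4 * d)) = 0 := (ZMod.natCast_eq_zero_iff _ _).2 hN
    rw [Nat.cast_sub (Nat.one_le_pow _ _ (by omega)), Nat.cast_one, sub_eq_zero] at h3
    rw [← h3]; push_cast; rfl
  obtain ⟨pu, hpu⟩ : IsUnit (p : ZMod (4 * d)) := IsUnit.of_pow_eq_one hpF hF0.ne'
  obtain ⟨u2, hu2⟩ := exists_unit_two hd
  refine no_char (by omega) hd ⟨F, hF0, hN, hb⟩ θ ?_ ?_ ?_ ?_
  · unfold DirichletCharacter.Odd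
    have h1 := hval (-1)
    rw [Units.val_neg, Units.val_one, map_neg (r4 d), map_neg (rd d), map_one (r4 d), map_one (rd d), hη1,
      mul_one, hχ4v] at h1
    rw [h1]
    have : ZMod.χ₄ (-1 : ZMod 4) = -1 := by decide
    rw [this]; simp
  · rw [← hpu, hval, hpu, map_natCast (r4 d), map_natCast (rd d), hηp, mul_one, hχ4v]
    have h2 : ((p : ℕ) : ZMod 4) = 1 := by
      rw [← Nat.cast_one, ZMod.natCast_eq_natCast_iff]
      exact hp
    rw [h2]
    simp
  · rw [← hu2, hval, hu2, map_add (r4 d), map_add (rd d), map_one (r4 d), map_one (rd d),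
      map_natCast (r4 d), map_natCast (rd d), hχ4v]
    have h2 : ((2 * d : ℕ) : ZMod d) = 0 := by rw [Nat.cast_mul, ZMod.natCast_self, mul_zero]
    rw [h2, add_zero, map_one, mul_one]
    have h3 : ((2 * d : ℕ) : ZMod 4) = 2 := by
      have : ((2 * d : ℕ) : ZMod 4) = ((2 : ℕ) : ZMod 4) := by
        rw [ZMod.natCast_eq_natCast_iff]
        obtain ⟨k, hk⟩ := hd
        unfold Nat.ModEq
        omega
      rw [this]; rfl
    rw [h3]
    have : ZMod.χ₄ (1 + 2 : ZMod 4) = -1 := by decide
    rw [this]; simp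
  · obtain ⟨v, hv⟩ : ∃ v : (ZMod d)ˣ, η v ≠ 1 := by
      by_contra hcon
      push Not at hcon
      apply hη
      ext v
      rw [hcon v, MulChar.one_apply_coe]
    have hcop : Nat.Coprime 4 d := by
      have : Nat.Coprime (2 ^ 2) d := Nat.Coprime.pow_left 2 (Nat.coprime_two_left.2 hd)
      exact this
    obtain ⟨k, hk4, hkd⟩ := Nat.chineseRemainder hcop 1 (v : ZMod d).val
    have hk4' : Nat.Coprime k 4 := by
      rw [Nat.coprime_iff_gcd_eq_one, Nat.ModEq.gcd_eq hk4]
      simp
    have hkd' : Nat.Coprime k d := by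
      rw [Nat.coprime_iff_gcd_eq_one, Nat.ModEq.gcd_eq hkd]
      exact ZMod.val_coe_unit_coprime v
    refine ⟨ZMod.unitOfCoprime k (Nat.Coprime.mul_right hk4' hkd'), ?_, ?_⟩
    · rw [ZMod.coe_unitOfCoprime, map_natCast, ← Nat.cast_one, ZMod.natCast_eq_natCast_iff]
      exact hk4
    · rw [hval, ZMod.coe_unitOfCoprime, map_natCast (r4 d), map_natCast (rd d)]
      have h1 : ((k : ℕ) : ZMod 4) = 1 := by
        rw [← Nat.cast_one, ZMod.natCast_eq_natCast_iff]
        exact hk4
      have h2 : ((k : ℕ) : ZMod d) = (v : ZMod d) := by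
        rw [← ZMod.natCast_zmod_val (v : ZMod d), ZMod.natCast_eq_natCast_iff]
        exact hkd
      rw [h1, h2, map_one, one_mul]
      exact hv

lemma H_neg {p F N : ℕ} [NeZero N] (x : ZMod N) : H p F (-x) = - H p F x := by
  unfold H
  rw [← sum_neg_distrib]
  refine sum_congr rfl fun s _ => ?_
  rw [mul_neg, saw_neg]

/-- `d` is not congruent to three modulo four -/
theorem no_three {p d : ℕ} (hp : p % 4 = 1) (hd : d % 4 = 3) (hbal : Bal p d) : False := by
  have : NeZero d := ⟨by omega⟩
  have hdo : Odd d := Nat.odd_iff.2 (by omega)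
  obtain ⟨F, hF0, hN, hb⟩ := hbal
  have hH := bal_H hF0 hN (by omega) hb
  have hpF : (p : ZMod (4 * d)) ^ F = 1 := by
    have h3 : ((p ^ F - 1 : ℕ) : ZMod (4 * d)) = 0 := (ZMod.natCast_eq_zero_iff _ _).2 hN
    rw [Nat.cast_sub (Nat.one_le_pow _ _ (by omega)), Nat.cast_one, sub_eq_zero] at h3
    rw [← h3]; push_cast; rfl
  obtain ⟨pu, hpu⟩ : IsUnit (p : ZMod (4 * d)) := IsUnit.of_pow_eq_one hpF hF0.ne'
  have hp4 : ((p : ℕ) : ZMod 4) = 1 := by
    rw [← Nat.cast_one, ZMod.natCast_eq_natCast_iff]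
    exact hp
  set X : Finset (ZMod (4 * d)) := univ.filter fun x => r4 d x = 1 with hX
  have hXm : ∀ x, x ∈ X ↔ r4 d x = 1 := fun x => by rw [hX, mem_filter]; simp
  -- the sum of the sawtooth function
  have hsaw : ∑ x ∈ X, saw x = -(2 * (d : ℤ)) := by
    have h1 : ∑ x ∈ X, saw x = ∑ j ∈ range d, (2 * (1 + 4 * (j : ℤ)) - (4 * d : ℕ)) := by
      symm
      refine sum_bij (fun j _ => ((1 + 4 * j : ℕ) : ZMod (4 * d))) ?_ ?_ ?_ ?_
      · intro j _
        rw [hXm, map_natCast]
        have : ((1 + 4 * j : ℕ) : ZMod 4) = ((1 : ℕ) : ZMod 4) := by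
          rw [ZMod.natCast_eq_natCast_iff]
          unfold Nat.ModEq
          omega
        rw [this, Nat.cast_one]
      · intro i hi j hj h
        rw [ZMod.natCast_eq_natCast_iff] at h
        have hi' := mem_range.1 hi
        have hj' := mem_range.1 hj
        have := Nat.ModEq.eq_of_lt_of_lt h (by omega) (by omega)
        omega
      · intro x hx
        rw [hXm, r4_val] at hx
        have h1 : x.val % 4 = 1 := by
          rw [← Nat.cast_one, ZMod.natCast_eq_natCast_iff] at hx
          exact hx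
        have h2 := ZMod.val_lt x
        refine ⟨x.val / 4, mem_range.2 (by omega), ?_⟩
        have h3 : 1 + 4 * (x.val / 4) = x.val := by omega
        rw [h3, ZMod.natCast_zmod_val]
      · intro j hj
        have hj' := mem_range.1 hj
        have h1 : (((1 + 4 * j : ℕ) : ZMod (4 * d))).val = 1 + 4 * j := by
          rw [ZMod.val_natCast, Nat.mod_eq_of_lt (by omega)]
        have h2 : ((1 + 4 * j : ℕ) : ZMod (4 * d)) ≠ 0 := by
          intro h
          rw [← ZMod.val_eq_zero, h1] at h
          omega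
        rw [saw_val _ h2, h1]
        push_cast
        rfl
    rw [h1, sum_sub_distrib, sum_const, card_range, ← mul_sum, sum_add_distrib, sum_const,
      card_range, ← mul_sum]
    have h2 : 2 * ∑ j ∈ range d, (j : ℤ) = (d : ℤ) * (d - 1) := by
      have h3 := Finset.sum_range_id_mul_two d
      have h4 : ((∑ i ∈ range d, i : ℕ) : ℤ) * 2 = (d : ℤ) * ((d - 1 : ℕ) : ℤ) := by
        exact_mod_cast h3
      rw [Nat.cast_sub (by omega)] at h4
      push_cast at h4
      linarith
    simp only [nsmul_eq_mul, mul_one]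
    push_cast
    linear_combination 4 * h2
  -- sums over orbits
  have hsum : ∑ x ∈ X, H p F x = F * -(2 * (d : ℤ)) := by
    unfold H
    rw [sum_comm]
    have h1 : ∀ s ∈ range F, ∑ x ∈ X, saw ((p : ZMod (4 * d)) ^ s * x) = -(2 * (d : ℤ)) := by
      intro s _
      rw [← hsaw]
      refine sum_equiv (Units.mulLeft (pu ^ s)) ?_ ?_
      · intro x
        rw [hXm, hXm, Units.mulLeft_apply, map_mul, Units.val_pow_eq_pow_val, hpu, map_pow,
          map_natCast, hp4, one_pow, one_mul]
      · intro x _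
        rw [Units.mulLeft_apply, Units.val_pow_eq_pow_val, hpu]
    rw [sum_congr rfl h1, sum_const, card_range, nsmul_eq_mul]
  -- the exceptional element
  set c : ZMod (4 * d) := ((3 * d : ℕ) : ZMod (4 * d)) with hc
  have hc4 : r4 d c = 1 := by
    rw [hc, map_natCast]
    have : ((3 * d : ℕ) : ZMod 4) = ((1 : ℕ) : ZMod 4) := by
      rw [ZMod.natCast_eq_natCast_iff]
      unfold Nat.ModEq
      omega
    rw [this, Nat.cast_one]
  have hcd : rd d c = 0 := by
    rw [hc, map_natCast, Nat.cast_mul, ZMod.natCast_self, mul_zero]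
  have hcX : c ∈ X := (hXm c).2 hc4
  have hHc : H p F c = F * (2 * (d : ℤ)) := by
    unfold H
    have h1 : ∀ s ∈ range F, saw ((p : ZMod (4 * d)) ^ s * c) = 2 * (d : ℤ) := by
      intro s _
      have h2 : (p : ZMod (4 * d)) ^ s * c = c := by
        have h3 : ((p : ZMod (4 * d)) ^ s - 1) * c = 0 := by
          apply eq_zero_of_casts hdo
          · rw [map_mul, map_sub, map_pow, map_natCast, hp4, one_pow, map_one, sub_self, zero_mul]
          · rw [map_mul, hcd, mul_zero]
        linear_combination h3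
      have h3 : c.val = 3 * d := by
        rw [hc, ZMod.val_natCast, Nat.mod_eq_of_lt (by omega)]
      have h4 : c ≠ 0 := by
        intro h
        rw [← ZMod.val_eq_zero, h3] at h
        omega
      rw [h2, saw_val _ h4, h3]
      push_cast
      ring
    rw [sum_congr rfl h1, sum_const, card_range, nsmul_eq_mul]
  -- the others cancel
  have hcancel : ∑ x ∈ X.erase c, H p F x = 0 := by
    have hτ : ∀ x ∈ X.erase c, H p F x = - H p F (-x - ((2 * d : ℕ) : ZMod (4 * d))) := by
      intro x hx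
      obtain ⟨hxc, hxX⟩ := mem_erase.1 hx
      rw [hXm] at hxX
      have hxd : rd d x ≠ 0 := by
        intro h
        apply hxc
        rw [← sub_eq_zero]
        apply eq_zero_of_casts hdo
        · rw [map_sub, hxX, hc4, sub_self]
        · rw [map_sub, h, hcd, sub_self]
      have hx2 : r2 d x = 1 := by
        rw [r2_val, ZMod.natCast_eq_one_iff_odd]
        rw [r4_val, ← Nat.cast_one, ZMod.natCast_eq_natCast_iff] at hxX
        have : x.val % 4 = 1 := hxX
        exact Nat.odd_iff.2 (by omega)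
      have h1 : -x - ((2 * d : ℕ) : ZMod (4 * d)) = -(x + ((2 * d : ℕ) : ZMod (4 * d))) := by ring
      rw [h1, H_neg, neg_neg]
      exact hH x hx2 hxd
    have h2d4 : r4 d ((2 * d : ℕ) : ZMod (4 * d)) = 2 := by
      rw [map_natCast]
      have : ((2 * d : ℕ) : ZMod 4) = ((2 : ℕ) : ZMod 4) := by
        rw [ZMod.natCast_eq_natCast_iff]
        unfold Nat.ModEq
        omega
      rw [this]; rfl
    have h2dd : rd d ((2 * d : ℕ) : ZMod (4 * d)) = 0 := by
      rw [map_natCast, Nat.cast_mul, ZMod.natCast_self, mul_zero]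
    have hmem : ∀ x, x ∈ X.erase c → -x - ((2 * d : ℕ) : ZMod (4 * d)) ∈ X.erase c := by
      intro x hx
      obtain ⟨hxc, hxX⟩ := mem_erase.1 hx
      rw [hXm] at hxX
      rw [mem_erase, hXm]
      constructor
      · intro h
        apply hxc
        rw [← sub_eq_zero]
        apply eq_zero_of_casts hdo
        · rw [map_sub, hxX, hc4, sub_self]
        · have h3 := congrArg (rd d) h
          rw [map_sub, map_neg, h2dd, hcd, sub_zero, neg_eq_zero] at h3
          rw [map_sub, h3, hcd, sub_self]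
      · rw [map_sub, map_neg, hxX, h2d4]
        decide
    have h1 : ∑ x ∈ X.erase c, H p F x =
        ∑ x ∈ X.erase c, H p F (-x - ((2 * d : ℕ) : ZMod (4 * d))) := by
      refine sum_bij (fun x _ => -x - ((2 * d : ℕ) : ZMod (4 * d))) ?_ ?_ ?_ ?_
      · exact hmem
      · intro x _ y _ h
        have : -x = -y := sub_left_injective h
        exact neg_injective this
      · intro y hy
        refine ⟨-y - ((2 * d : ℕ) : ZMod (4 * d)), hmem y hy, ?_⟩
        ring
      · intro x _
        congr 1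
        ring
    have h2 : ∑ x ∈ X.erase c, H p F x = - ∑ x ∈ X.erase c, H p F x := by
      nth_rewrite 2 [h1]
      rw [← sum_neg_distrib]
      exact sum_congr rfl hτ
    omega
  rw [← add_sum_erase _ _ hcX, hHc, hcancel] at hsum
  have hd0 : (0 : ℤ) < d := by exact_mod_cast (by omega : 0 < d)
  have hF0' : (0 : ℤ) < F := by exact_mod_cast hF0
  have := mul_pos hF0' hd0
  nlinarith

end Pool.Agent.Q275.Cheb
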