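import Pool.Agent.Q275.Cheb.Torus

/-!
# Relations with Gauss and Jacobi sums
-/

set_option autoImplicit false
set_option linter.unusedSectionVars false

namespace Pool.Agent.Q275.Cheb

open Finset

section one

variable {E K : Type} [Field E] [Fintype E] [DecidableEq E] [Field K] [CharZero K]

/-- the quadratic character with values in `K` -/
noncomputable def chi (E K : Type) [Field E] [Fintype E] [DecidableEq E] [Field K] [CharZero K] :
    MulChar E K := (quadraticChar E).ringHomComp (Int.castRingHom K)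

lemma chi_apply (a : E) : chi E K a = (quadraticChar E a : K) := rfl

lemma chi_ne_one (h2 : ringChar E ≠ 2) : chi E K ≠ 1 := by
  intro h
  obtain ⟨a, ha⟩ := quadraticChar_exists_neg_one' h2
  have h1 : chi E K (a : E) = 1 := by rw [h, MulChar.one_apply_coe]
  rw [chi_apply, ha] at h1
  norm_num at h1

lemma Jp_eq (κ : MulChar E K) : Jp κ = κ (-1) * jacobiSum κ (chi E K) := by
  unfold Jp jacobiSum
  rw [mul_sum, ← Equiv.sum_comp (Equiv.neg E)]
  refine sum_congr rfl fun w _ => ?_
  rw [Equiv.neg_apply, ← mul_assoc, ← map_mul, chi_apply, neg_one_mul, sub_eq_add_neg]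

lemma neg_one_root (κ : MulChar E K) : κ (-1) * κ (-1) = 1 := by
  rw [← map_mul]; simp

lemma chi_mul_gauss {ψ : AddChar E K} (h2 : ringChar E ≠ 2) (a : E) :
    chi E K a * gaussSum (chi E K) ψ = ∑ s : E, chi E K s * ψ (a * s) := by
  by_cases ha : a = 0
  · rw [ha, MulChar.map_zero, zero_mul]
    simp only [zero_mul, AddChar.map_zero_eq_one, mul_one]
    exact (MulChar.sum_eq_zero_of_ne_one (chi_ne_one h2)).symm
  · have h1 := gaussSum_mulShift (chi E K) ψ (Units.mk0 a ha)
    rw [Units.val_mk0] at h1
    have h3 : chi E K a * chi E K a = 1 := by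
      have := quad_sq (Units.mk0 a ha)
      rw [Units.val_mk0] at this
      rw [chi_apply, ← Int.cast_mul, this, Int.cast_one]
    rw [← h1, ← mul_assoc, h3, one_mul]
    unfold gaussSum
    exact sum_congr rfl fun s _ => by rw [AddChar.mulShift_apply]

end one

section two

variable {E L K : Type} [Field E] [Fintype E] [DecidableEq E] [Field L] [Fintype L] [DecidableEq L]
  [Algebra E L] [Field K] [CharZero K]

/-- the additive character of `L` attached to one of `E` -/
noncomputable def psiL (L : Type) {E K : Type} [Field E] [Field L] [Algebra E L] [Field K]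
    (ψ : AddChar E K) : AddChar L K :=
  ψ.compAddMonoidHom (Algebra.trace E L).toAddMonoidHom

lemma psiL_apply (ψ : AddChar E K) (x : L) : psiL L ψ x = ψ (Algebra.trace E L x) := rfl

lemma psiL_prim {ψ : AddChar E K} (hψ : ψ.IsPrimitive) : (psiL L ψ).IsPrimitive := by
  apply AddChar.IsPrimitive.of_ne_one
  intro h
  have h1 : ψ ≠ 1 := by
    intro h2
    have h3 := hψ (a := 1) one_ne_zero
    rw [AddChar.mulShift_one] at h3
    exact h3 h2
  apply h1
  ext c
  obtain ⟨x, hx⟩ := Algebra.trace_surjective E L c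
  have h4 : psiL L ψ x = 1 := by rw [h]; rfl
  rw [psiL_apply, hx] at h4
  rw [h4]; rfl

theorem up_gauss (h2 : ringChar E ≠ 2) {κ : MulChar L K}
    (hκ : ∀ s : Eˣ, κ (algebraMap E L (s : E)) = (quadraticChar E (s : E) : K))
    (ψ : AddChar E K) :
    Up E κ * gaussSum (chi E K) ψ = ((Fintype.card E - 1 : ℕ) : K) * gaussSum κ (psiL L ψ) := by
  unfold Up
  rw [sum_mul]
  have h1 : ∀ w : L, κ w * (quadraticChar E (Algebra.trace E L w) : K) * gaussSum (chi E K) ψ =
      ∑ s : E, chi E K s * (κ w * psiL L ψ (algebraMap E L s * w)) := by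
    intro w
    rw [mul_assoc, ← chi_apply (K := K), chi_mul_gauss h2, mul_sum]
    refine sum_congr rfl fun s _ => ?_
    rw [psiL_apply, ← Algebra.smul_def, map_smul, smul_eq_mul, mul_comm s]
    ring
  rw [sum_congr rfl fun w _ => h1 w, sum_comm]
  have h3 : ∀ s : E, ∑ w : L, chi E K s * (κ w * psiL L ψ (algebraMap E L s * w)) =
      if s = 0 then 0 else gaussSum κ (psiL L ψ) := by
    intro s
    rw [← mul_sum]
    split_ifs with hs
    · rw [hs, MulChar.map_zero, zero_mul]
    · have hs' : algebraMap E L s ≠ 0 := by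
        rwa [Ne, map_eq_zero_iff _ (algebraMap E L).injective]
      have h4 := gaussSum_mulShift κ (psiL L ψ) (Units.mk0 _ hs')
      have h5 := hκ (Units.mk0 s hs)
      rw [Units.val_mk0] at h4 h5
      rw [h5, ← chi_apply (K := K)] at h4
      rw [← h4]
      unfold gaussSum
      rfl
  rw [sum_congr rfl fun s _ => h3 s, ← Finset.add_sum_erase _ _ (mem_univ (0 : E)), if_pos rfl,
    zero_add, sum_congr rfl (fun c hc => if_neg (ne_of_mem_erase hc)), sum_const,
    card_erase_of_mem (mem_univ _), card_univ, nsmul_eq_mul]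

end two

section three

/-- all primitive additive characters are shifts of one another -/
theorem exists_shift {L K : Type} [Field L] [Fintype L] [Field K] {ψ : AddChar L K}
    (hψ : ψ.IsPrimitive) (ψ' : AddChar L K) : ∃ a : L, AddChar.mulShift ψ a = ψ' := by
  classical
  by_contra hcon
  push Not at hcon
  let f : Option L → (Multiplicative L →* K) := fun o =>
    match o with
    | none => ψ'.toMonoidHom
    | some a => (AddChar.mulShift ψ a).toMonoidHom
  have hf : Function.Injective f := by
    intro x y h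
    match x, y with
    | none, none => rfl
    | none, some a =>
      exfalso
      apply hcon a
      ext z
      have h1 := congrArg (fun g : Multiplicative L →* K => g (Multiplicative.ofAdd z)) h
      exact h1.symm
    | some a, none =>
      exfalso
      apply hcon a
      ext z
      have h1 := congrArg (fun g : Multiplicative L →* K => g (Multiplicative.ofAdd z)) h
      exact h1
    | some a, some b =>
      congr 1
      apply AddChar.to_mulShift_inj_of_isPrimitive hψ
      ext z
      have h1 := congrArg (fun g : Multiplicative L →* K => g (Multiplicative.ofAdd z)) h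
      exact h1
  have h1 := (linearIndependent_monoidHom (Multiplicative L) K).comp f hf
  have h2 := h1.fintype_card_le_finrank
  rw [Fintype.card_option, Module.finrank_fintype_fun_eq_card] at h2
  have h3 : Fintype.card (Multiplicative L) = Fintype.card L := Fintype.card_multiplicative L
  omega

theorem norm_root {L K : Type} [Field L] [Fintype L] [NormedField K] (κ : MulChar L K) {a : L}
    (ha : a ≠ 0) : ‖κ a‖ = 1 := by
  have h1 : a ^ (Fintype.card L - 1) = 1 := FiniteField.pow_card_sub_one_eq_one a ha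
  have h2 := congrArg κ h1
  rw [map_pow, map_one] at h2
  have h3 := congrArg norm h2
  rw [norm_pow, norm_one] at h3
  have h4 : 1 < Fintype.card L := Fintype.one_lt_card
  exact (pow_eq_one_iff_of_nonneg (norm_nonneg _) (by omega)).1 h3

theorem norm_gauss_indep {L K : Type} [Field L] [Fintype L] [NormedField K]
    {ψ ψ' : AddChar L K} (hψ : ψ.IsPrimitive) (hψ' : ψ'.IsPrimitive) (κ : MulChar L K) :
    ‖gaussSum κ ψ'‖ = ‖gaussSum κ ψ‖ := by
  obtain ⟨a, rfl⟩ := exists_shift hψ ψ'
  have ha : a ≠ 0 := by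
    rintro rfl
    have h1 := hψ' (a := 1) one_ne_zero
    apply h1
    ext z
    simp
  have h1 := gaussSum_mulShift κ ψ (Units.mk0 a ha)
  rw [Units.val_mk0] at h1
  rw [← h1, norm_mul, norm_root κ ha, one_mul]

end three

section four

variable {E : Type} [Field E] [Fintype E] [DecidableEq E]

theorem norm_gauss_sq {κ : MulChar E ℂ} (hκ : κ ≠ 1) {ψ : AddChar E ℂ} (hψ : ψ.IsPrimitive) :
    ‖gaussSum κ ψ‖ ^ 2 = Fintype.card E := by
  have h1 := gaussSum_mul_gaussSum_eq_card hκ hψ
  rw [← star_gaussSum_eq] at h1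
  have h2 : ((‖gaussSum κ ψ‖ ^ 2 : ℝ) : ℂ) = ((Fintype.card E : ℝ) : ℂ) := by
    rw [Complex.ofReal_pow, ← Complex.mul_conj', Complex.ofReal_natCast, ← h1]
    rfl
  exact_mod_cast h2

theorem norm_Jp_sq {κ : MulChar E ℂ} (hκ : κ ≠ 1) (hκ2 : κ * chi E ℂ ≠ 1) (h2 : ringChar E ≠ 2) :
    ‖Jp κ‖ ^ 2 = Fintype.card E := by
  obtain ⟨ψ, hψ⟩ : ∃ ψ : AddChar E ℂ, ψ.IsPrimitive := by
    obtain ⟨ψ, hψ⟩ := (AddChar.exists_apply_ne_zero (α := E)).2 (one_ne_zero)
    refine ⟨ψ, AddChar.IsPrimitive.of_ne_one ?_⟩
    rintro rfl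
    exact hψ rfl
  have h3 := jacobiSum_mul_nontrivial hκ2 ψ
  have h4 := congrArg (fun z => ‖z‖ ^ 2) h3
  simp only [norm_mul, mul_pow] at h4
  rw [norm_gauss_sq hκ2 hψ, norm_gauss_sq hκ hψ, norm_gauss_sq (chi_ne_one h2) hψ] at h4
  have h5 : (Fintype.card E : ℝ) ≠ 0 := by
    exact_mod_cast Fintype.card_ne_zero
  rw [Jp_eq, norm_mul, norm_root κ (neg_ne_zero.2 one_ne_zero), one_mul]
  exact mul_left_cancel₀ h5 h4

end four

end Pool.Agent.Q275.Cheb
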