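import Mathlib

/-!
# Power maps on finite cyclic groups
-/

set_option autoImplicit false

namespace Pool.Agent.Q275.Cheb

open Finset

theorem sum_pow_gcd {G : Type*} [CommGroup G] [Fintype G] [IsCyclic G] {A : Type*}
    [AddCommMonoid A] (F : G → A) (d : ℕ) :
    ∑ t : G, F (t ^ d) = ∑ t : G, F (t ^ (Nat.gcd d (Fintype.card G))) := by
  set M := Fintype.card G with hM
  have hM0 : 0 < M := Fintype.card_pos
  set a := Nat.gcd d M with ha
  have ha0 : 0 < a := Nat.gcd_pos_of_pos_right _ hM0
  obtain ⟨d', hd'⟩ : a ∣ d := Nat.gcd_dvd_left _ _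
  obtain ⟨M', hM'⟩ : a ∣ M := Nat.gcd_dvd_right _ _
  have hcop : Nat.Coprime d' M' := by
    have h1 : Nat.gcd (a * d') (a * M') = a := by rw [← hd', ← hM']
    rw [Nat.gcd_mul_left] at h1
    exact Nat.eq_of_mul_eq_mul_left ha0 (by rw [h1, mul_one])
  have : NeZero M := ⟨hM0.ne'⟩
  obtain ⟨u, hu⟩ := ZMod.unitsMap_surjective (n := M') (m := M) ⟨a, by rw [hM', mul_comm]⟩
    (ZMod.unitOfCoprime d' hcop)
  set k := (u : ZMod M).val with hk
  have hkM : Nat.Coprime k M := ZMod.val_coe_unit_coprime u
  have hkd : k ≡ d' [MOD M'] := by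
    rw [← ZMod.natCast_eq_natCast_iff]
    have h1 := congrArg (fun x : (ZMod M')ˣ => (x : ZMod M')) hu
    simp only [ZMod.unitsMap_def, Units.coe_map, ZMod.coe_unitOfCoprime] at h1
    rw [← h1, hk, ZMod.natCast_val]
    rfl
  have hkd2 : a * k ≡ d [MOD M] := by
    rw [hd', hM']
    exact Nat.ModEq.mul_left' a hkd
  have hpow : ∀ t : G, t ^ d = (t ^ k) ^ a := by
    intro t
    rw [← pow_mul, mul_comm k a]
    rw [pow_eq_pow_iff_modEq]
    exact (hkd2.symm.of_dvd (orderOf_dvd_card))
  have hcard : (Nat.card G).Coprime k := by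
    rw [Nat.card_eq_fintype_card]
    exact hkM.symm
  have h1 := Equiv.sum_comp (powCoprime hcard) (fun t => F (t ^ a))
  rw [← h1]
  exact sum_congr rfl fun t _ => by rw [hpow t]; rfl

/-- the number of `n`-th roots -/
theorem sum_pow_dvd {G : Type*} [CommGroup G] [Fintype G] [DecidableEq G] {K : Type*} [Field K]
    {n : ℕ} (hn0 : n ≠ 0) (hn : n ∣ Fintype.card G) (g : G) (hg : ∀ x, x ∈ Subgroup.zpowers g)
    (φ : G →* K) (hφ : IsPrimitiveRoot (φ g) n) (Φ : G → K) :
    ∑ t : G, Φ (t ^ n) = ∑ j ∈ range n, ∑ w : G, φ w ^ j * Φ w := by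
  have : IsCyclic G := ⟨g, hg⟩
  have hgp : ∀ x : G, ∃ i : ℕ, g ^ i = x := fun x =>
    (mem_powers_iff_mem_zpowers.2 (hg x))
  have hφn : ∀ t : G, φ t ^ n = 1 := by
    intro t
    obtain ⟨i, rfl⟩ := hgp t
    rw [map_pow, ← pow_mul, mul_comm, pow_mul, hφ.pow_eq_one, one_pow]
  have hker : ((univ : Finset G).filter fun t => t ^ n = 1).card = n := by
    have h1 := IsCyclic.card_powMonoidHom_ker (G := G) n
    rw [Nat.card_eq_fintype_card (α := G), Nat.gcd_eq_right hn] at h1
    rw [Nat.card_eq_fintype_card, Fintype.card_subtype] at h1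
    refine Eq.trans ?_ h1
    congr 1
    ext t
    simp [MonoidHom.mem_ker]
  have hcount : ∀ w : G, (((univ : Finset G).filter fun t => t ^ n = w).card : K) =
      ∑ j ∈ range n, φ w ^ j := by
    intro w
    by_cases hw : φ w = 1
    · obtain ⟨i, rfl⟩ := hgp w
      rw [map_pow] at hw
      obtain ⟨c, rfl⟩ := hφ.dvd_of_pow_eq_one i hw
      have h1 : ((univ : Finset G).filter fun t => t ^ n = g ^ (n * c)).card = n := by
        refine Eq.trans (b := ((univ : Finset G).filter fun t => t ^ n = 1).card) ?_ hker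
        refine card_bij (fun t _ => t * (g ^ c)⁻¹) ?_ ?_ ?_
        · intro t ht
          simp only [mem_filter, mem_univ, true_and] at ht ⊢
          rw [mul_pow, ht, inv_pow, ← pow_mul, mul_comm c n, mul_inv_cancel]
        · intro s _ t _ h
          exact mul_right_cancel h
        · intro t ht
          simp only [mem_filter, mem_univ, true_and] at ht
          refine ⟨t * g ^ c, ?_, by group⟩
          simp only [mem_filter, mem_univ, true_and]
          rw [mul_pow, ht, one_mul, ← pow_mul, mul_comm c n]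
      rw [h1, map_pow, hw]
      simp
    · have h1 : ((univ : Finset G).filter fun t => t ^ n = w).card = 0 := by
        rw [card_eq_zero, filter_eq_empty_iff]
        intro t _ ht
        apply hw
        rw [← ht, map_pow, hφn]
      rw [h1]
      have h2 := geom_sum_mul (φ w) n
      rw [hφn, sub_self] at h2
      have h3 : φ w - 1 ≠ 0 := sub_ne_zero.2 hw
      rw [(mul_eq_zero.1 h2).resolve_right h3]
      simp
  rw [sum_comm]
  have h1 : ∑ t : G, Φ (t ^ n) = ∑ w : G, (((univ : Finset G).filter fun t => t ^ n = w).card : K) * Φ w := by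
    rw [← sum_fiberwise_of_maps_to (s := univ) (t := univ) (g := fun t : G => t ^ n)
      (fun _ _ => mem_univ _)]
    refine sum_congr rfl fun w _ => ?_
    rw [sum_congr rfl (g := fun _ => Φ w) (fun t ht => by rw [(mem_filter.1 ht).2]), sum_const,
      nsmul_eq_mul]
  rw [h1]
  refine sum_congr rfl fun w _ => ?_
  rw [hcount w, sum_mul]

/-- averaging over the range of a power map -/
theorem sum_pow_ker {G : Type*} [CommGroup G] [Fintype G] [DecidableEq G] [IsCyclic G] {K : Type*}
    [Field K] {m n : ℕ} (hmn : m * n = Fintype.card G) (Φ : G → K) :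
    ∑ t : G, Φ (t ^ n) = (n : K) * ∑ w : (powMonoidHom m : G →* G).ker, Φ w := by
  have hG : 0 < Fintype.card G := Fintype.card_pos
  have hn : n ∣ Fintype.card G := ⟨m, by rw [← hmn, mul_comm]⟩
  have hm : m ∣ Fintype.card G := ⟨n, hmn.symm⟩
  have hm0 : 0 < m := Nat.pos_of_ne_zero (by rintro rfl; simp at hmn; omega)
  have hn0 : 0 < n := Nat.pos_of_ne_zero (by rintro rfl; simp at hmn; omega)
  have hker : ((univ : Finset G).filter fun t => t ^ n = 1).card = n := by
    have h1 := IsCyclic.card_powMonoidHom_ker (G := G) n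
    rw [Nat.card_eq_fintype_card (α := G), Nat.gcd_eq_right hn] at h1
    rw [Nat.card_eq_fintype_card, Fintype.card_subtype] at h1
    refine Eq.trans ?_ h1
    congr 1
    ext t
    simp [MonoidHom.mem_ker]
  have hrange : (powMonoidHom n : G →* G).range = (powMonoidHom m : G →* G).ker := by
    apply Subgroup.eq_of_le_of_card_ge
    · rintro _ ⟨t, rfl⟩
      rw [MonoidHom.mem_ker]
      simp only [powMonoidHom_apply]
      rw [← pow_mul, mul_comm, hmn, pow_card_eq_one]
    · rw [IsCyclic.card_powMonoidHom_ker, IsCyclic.card_powMonoidHom_range,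
        Nat.card_eq_fintype_card (α := G), Nat.gcd_eq_right hn, Nat.gcd_eq_right hm, ← hmn,
        Nat.mul_div_cancel _ hn0]
  have hcount : ∀ w : G, ((univ : Finset G).filter fun t => t ^ n = w).card =
      if w ∈ (powMonoidHom m : G →* G).ker then n else 0 := by
    intro w
    split_ifs with hw
    · rw [← hrange] at hw
      obtain ⟨c, rfl⟩ := hw
      refine Eq.trans ?_ hker
      refine card_bij (fun t _ => t * c⁻¹) ?_ ?_ ?_
      · intro t ht
        simp only [mem_filter, mem_univ, true_and, powMonoidHom_apply] at ht ⊢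
        rw [mul_pow, ht, inv_pow, mul_inv_cancel]
      · intro s _ t _ h
        exact mul_right_cancel h
      · intro t ht
        simp only [mem_filter, mem_univ, true_and] at ht
        refine ⟨t * c, ?_, by group⟩
        simp only [mem_filter, mem_univ, true_and, powMonoidHom_apply]
        rw [mul_pow, ht, one_mul]
    · rw [card_eq_zero, filter_eq_empty_iff]
      intro t _ ht
      apply hw
      rw [← hrange]
      exact ⟨t, ht⟩
  have h1 : ∑ t : G, Φ (t ^ n) = ∑ w : G, (((univ : Finset G).filter fun t => t ^ n = w).card : K) * Φ w := by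
    rw [← sum_fiberwise_of_maps_to (s := univ) (t := univ) (g := fun t : G => t ^ n)
      (fun _ _ => mem_univ _)]
    refine sum_congr rfl fun w _ => ?_
    rw [sum_congr rfl (g := fun _ => Φ w) (fun t ht => by rw [(mem_filter.1 ht).2]), sum_const,
      nsmul_eq_mul]
  rw [h1, mul_sum]
  have h2 : ∀ w : G, (((univ : Finset G).filter fun t => t ^ n = w).card : K) * Φ w =
      if w ∈ (powMonoidHom m : G →* G).ker then (n : K) * Φ w else 0 := by
    intro w
    rw [hcount]
    split_ifs <;> simp
  rw [sum_congr rfl fun w _ => h2 w, ← sum_filter]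
  exact (sum_subtype _ (fun x => by simp) _)

end Pool.Agent.Q275.Cheb
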