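import Pool.Agent.Q275.Cheb.Arith

/-!
# No odd characters
-/

set_option autoImplicit false
set_option linter.unusedSectionVars false

namespace Pool.Agent.Q275.Cheb

open Finset Pool.Agent.Y145.DI Pool.Agent.H916R2

variable {d : ℕ} [NeZero d]

lemma SS_shift {m : ℕ} [NeZero m] (θ : DirichletCharacter ℂ m) (u : (ZMod m)ˣ) (a : ZMod m) :
    SS θ a = θ u * SS θ ((u : ZMod m) * a) := by
  unfold SS
  rw [← Equiv.sum_comp (Equiv.mulRight u), mul_sum]
  refine sum_congr rfl fun t _ => ?_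
  rw [Equiv.coe_mulRight, Units.val_mul, map_mul, mul_assoc (t : ZMod m)]
  ring

lemma SS_eq_zero {m : ℕ} [NeZero m] {θ : DirichletCharacter ℂ m} {u : (ZMod m)ˣ} {a : ZMod m}
    (h : (u : ZMod m) * a = a) (hu : θ u ≠ 1) : SS θ a = 0 := by
  have h1 := SS_shift θ u a
  rw [h] at h1
  have h2 : (1 - θ u) * SS θ a = 0 := by linear_combination h1
  exact (mul_eq_zero.1 h2).resolve_left (sub_ne_zero.2 hu.symm)

lemma eq_zero_of_casts (hd : Odd d) {x : ZMod (4 * d)} (h4 : r4 d x = 0) (hdx : rd d x = 0) :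
    x = 0 := by
  rw [r4_val, ZMod.natCast_eq_zero_iff] at h4
  rw [rd_val, ZMod.natCast_eq_zero_iff] at hdx
  have h1 : Nat.Coprime 4 d := by
    have : Nat.Coprime (2 ^ 2) d := Nat.Coprime.pow_left 2 (Nat.coprime_two_left.2 hd)
    exact this
  have h2 := h1.mul_dvd_of_dvd_of_dvd h4 hdx
  rw [← ZMod.val_eq_zero]
  exact Nat.eq_zero_of_dvd_of_lt h2 (ZMod.val_lt x)

/-- the unit `1 + 2 d` -/
lemma exists_unit_two (hd : Odd d) : ∃ u : (ZMod (4 * d))ˣ,
    (u : ZMod (4 * d)) = 1 + ((2 * d : ℕ) : ZMod (4 * d)) := by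
  have h1 : (1 + ((2 * d : ℕ) : ZMod (4 * d))) * (1 + ((2 * d : ℕ) : ZMod (4 * d))) = 1 := by
    have h2 : ((4 * d : ℕ) : ZMod (4 * d)) = 0 := ZMod.natCast_self _
    have h3 : (1 + ((2 * d : ℕ) : ZMod (4 * d))) * (1 + ((2 * d : ℕ) : ZMod (4 * d))) =
        1 + ((4 * d : ℕ) : ZMod (4 * d)) * (1 + d) := by push_cast; ring
    rw [h3, h2, zero_mul, add_zero]
  exact ⟨⟨_, _, h1, h1⟩, rfl⟩

lemma r2_unit (t : (ZMod (4 * d))ˣ) : r2 d t = 1 := by
  have h1 : IsUnit (r2 d t) := t.isUnit.map _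
  generalize r2 d t = y at h1
  fin_cases y
  · exact absurd (h1 : IsUnit (0 : ZMod 2)) not_isUnit_zero
  · rfl

lemma two_d_mul {x : ZMod (4 * d)} (h : r2 d x = 1) :
    (1 + ((2 * d : ℕ) : ZMod (4 * d))) * x = x + ((2 * d : ℕ) : ZMod (4 * d)) := by
  rw [r2_val, ZMod.natCast_eq_one_iff_odd] at h
  obtain ⟨k, hk⟩ := h
  have h1 : x = ((x.val : ℕ) : ZMod (4 * d)) := (ZMod.natCast_zmod_val x).symm
  have h2 : ((4 * d : ℕ) : ZMod (4 * d)) = 0 := ZMod.natCast_self _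
  have h3 : ((2 * d : ℕ) : ZMod (4 * d)) * x = ((2 * d : ℕ) : ZMod (4 * d)) := by
    rw [h1, hk]
    have : ((2 * d : ℕ) : ZMod (4 * d)) * ((2 * k + 1 : ℕ) : ZMod (4 * d)) =
        ((4 * d : ℕ) : ZMod (4 * d)) * k + ((2 * d : ℕ) : ZMod (4 * d)) := by push_cast; ring
    rw [this, h2, zero_mul, zero_add]
  rw [add_mul, one_mul, h3]

lemma two_d_mul_even {x : ZMod (4 * d)} (h : r2 d x = 0) :
    (1 + ((2 * d : ℕ) : ZMod (4 * d))) * x = x := by
  rw [r2_val, ZMod.natCast_eq_zero_iff] at h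
  obtain ⟨k, hk⟩ := h
  have h1 : x = ((x.val : ℕ) : ZMod (4 * d)) := (ZMod.natCast_zmod_val x).symm
  have h2 : ((4 * d : ℕ) : ZMod (4 * d)) = 0 := ZMod.natCast_self _
  have h3 : ((2 * d : ℕ) : ZMod (4 * d)) * x = 0 := by
    rw [h1, hk]
    have : ((2 * d : ℕ) : ZMod (4 * d)) * ((2 * k : ℕ) : ZMod (4 * d)) =
        ((4 * d : ℕ) : ZMod (4 * d)) * k := by push_cast; ring
    rw [this, h2, zero_mul]
  rw [add_mul, one_mul, h3, add_zero]

theorem no_char {p : ℕ} (hp1 : 1 ≤ p) (hd : Odd d) (hbal : Bal p d)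
    (θ : DirichletCharacter ℂ (4 * d)) (hodd : θ.Odd) (hθp : θ (p : ZMod (4 * d)) = 1)
    (hθ2 : θ (1 + ((2 * d : ℕ) : ZMod (4 * d))) = -1)
    (hθu : ∃ u : (ZMod (4 * d))ˣ, r4 d u = 1 ∧ θ u ≠ 1) : False := by
  obtain ⟨F, hF0, hN, hbal⟩ := hbal
  have hH := bal_H hF0 hN hp1 hbal
  have hpF : (p : ZMod (4 * d)) ^ F = 1 := by
    have h3 : ((p ^ F - 1 : ℕ) : ZMod (4 * d)) = 0 := (ZMod.natCast_eq_zero_iff _ _).2 hN
    rw [Nat.cast_sub (Nat.one_le_pow _ _ hp1), Nat.cast_one, sub_eq_zero] at h3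
    rw [← h3]; push_cast; rfl
  obtain ⟨pu, hpu⟩ : IsUnit (p : ZMod (4 * d)) := IsUnit.of_pow_eq_one hpF hF0.ne'
  obtain ⟨u2, hu2⟩ := exists_unit_two hd
  obtain ⟨a, ha⟩ := exists_SS_ne_zero θ hodd
  apply ha
  have hcase : r2 d a = 0 ∨ r2 d a = 1 := by
    generalize r2 d a = y
    fin_cases y
    · left; rfl
    · right; rfl
  rcases hcase with h2 | h2
  · apply SS_eq_zero (u := u2)
    · rw [hu2]; exact two_d_mul_even h2
    · rw [hu2, hθ2]; norm_num
  · by_cases hda : rd d a = 0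
    · obtain ⟨u, hu4, hu1⟩ := hθu
      apply SS_eq_zero (u := u) _ hu1
      have h3 : ((u : ZMod (4 * d)) - 1) * a = 0 := by
        apply eq_zero_of_casts hd
        · rw [map_mul, map_sub, hu4, map_one, sub_self, zero_mul]
        · rw [map_mul, hda, mul_zero]
      linear_combination h3
    · have key : (F : ℂ) * SS θ a = ∑ t : (ZMod (4 * d))ˣ, θ t * (H p F ((t : ZMod (4 * d)) * a) : ℂ) := by
        have h3 : ∀ s ∈ range F, SS θ a = ∑ t : (ZMod (4 * d))ˣ,
            θ t * (saw ((p : ZMod (4 * d)) ^ s * ((t : ZMod (4 * d)) * a)) : ℂ) := by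
          intro s _
          rw [SS_shift θ (pu ^ s) a]
          have h4 : θ ((pu ^ s : (ZMod (4 * d))ˣ) : ZMod (4 * d)) = 1 := by
            rw [Units.val_pow_eq_pow_val, hpu, map_pow, hθp, one_pow]
          rw [h4, one_mul]
          unfold SS
          refine sum_congr rfl fun t _ => ?_
          rw [Units.val_pow_eq_pow_val, hpu]
          congr 3
          ring
        have h4 : (F : ℂ) * SS θ a = ∑ s ∈ range F, SS θ a := by
          rw [sum_const, card_range, nsmul_eq_mul]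
        rw [h4, sum_congr rfl h3, sum_comm]
        refine sum_congr rfl fun t _ => ?_
        unfold H
        rw [Int.cast_sum, mul_sum]
      have h5 : ∀ t : (ZMod (4 * d))ˣ, H p F ((t : ZMod (4 * d)) * a) =
          H p F (((t * u2 : (ZMod (4 * d))ˣ) : ZMod (4 * d)) * a) := by
        intro t
        have hx2 : r2 d ((t : ZMod (4 * d)) * a) = 1 := by rw [map_mul, r2_unit, h2, one_mul]
        have hxd : rd d ((t : ZMod (4 * d)) * a) ≠ 0 := by
          rw [map_mul]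
          intro h
          exact hda ((t.isUnit.map (rd d)).mul_right_eq_zero.1 h)
        rw [hH _ hx2 hxd, ← two_d_mul hx2, Units.val_mul, hu2]
        congr 1
        ring
      have h6 : ∑ t : (ZMod (4 * d))ˣ, θ t * (H p F ((t : ZMod (4 * d)) * a) : ℂ) =
          - ∑ t : (ZMod (4 * d))ˣ, θ t * (H p F ((t : ZMod (4 * d)) * a) : ℂ) := by
        nth_rewrite 2 [← Equiv.sum_comp (Equiv.mulRight u2)]
        rw [← sum_neg_distrib]
        refine sum_congr rfl fun t _ => ?_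
        rw [Equiv.coe_mulRight, ← h5 t, Units.val_mul, map_mul, hu2, hθ2]
        ring
      have h7 : (F : ℂ) * SS θ a = 0 := by
        rw [key]
        have h8 : 2 * ∑ t : (ZMod (4 * d))ˣ, θ t * (H p F ((t : ZMod (4 * d)) * a) : ℂ) = 0 := by
          linear_combination h6
        exact (mul_eq_zero.1 h8).resolve_left two_ne_zero
      have hF' : (F : ℂ) ≠ 0 := by exact_mod_cast hF0.ne'
      exact (mul_eq_zero.1 h7).resolve_left hF'

end Pool.Agent.Q275.Cheb
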