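import Pool.Agent.Q275.Cheb.Char

/-!
# The torus part
-/

set_option autoImplicit false
set_option linter.unusedSectionVars false

namespace Pool.Agent.Q275.Cheb

open Finset

variable {E L K : Type} [Field E] [Fintype E] [DecidableEq E] [Field L] [Fintype L] [DecidableEq L]
  [Algebra E L] [Field K] [CharZero K]

lemma norm_eq (hc : Fintype.card L = Fintype.card E ^ 2) (z : L) :
    algebraMap E L (Algebra.norm E z) = z ^ (Fintype.card E + 1) := by
  rw [FiniteField.algebraMap_norm_eq_pow_sum, finrank_two hc, sum_range_succ, sum_range_one,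
    Nat.card_eq_fintype_card, pow_zero, pow_one, add_comm]

lemma norm_ne (hc : Fintype.card L = Fintype.card E ^ 2) (z : Lˣ) : Algebra.norm E (z : L) ≠ 0 := by
  intro h
  have h1 := norm_eq hc (z : L)
  rw [h, map_zero] at h1
  exact pow_ne_zero _ z.ne_zero h1.symm

lemma ringChar_ne (hE : Fintype.card E % 4 = 1) : ringChar E ≠ 2 := by
  intro h
  have h1 := FiniteField.even_card_of_char_two h
  omega

lemma ringChar_ne' (hc : Fintype.card L = Fintype.card E ^ 2) (hE : Fintype.card E % 4 = 1) :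
    ringChar L ≠ 2 := by
  intro h
  have h1 := FiniteField.even_card_of_char_two h
  rw [hc, pow_two] at h1
  have h2 : (Fintype.card E * Fintype.card E) % 2 = 1 := by
    rw [Nat.mul_mod]
    have : Fintype.card E % 2 = 1 := by omega
    rw [this]
  omega

lemma one_ne_neg_one_of (h : ringChar L ≠ 2) : (1 : L) ≠ -1 := by
  intro h1
  exact Ring.neg_one_ne_one_of_char_ne_two h h1.symm

lemma quad_norm (hc : Fintype.card L = Fintype.card E ^ 2) (hE : Fintype.card E % 4 = 1) (z : Lˣ) :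
    quadraticChar E (Algebra.norm E (z : L)) = quadraticChar L (z : L) := by
  have h2E := ringChar_ne hE
  have h2L := ringChar_ne' hc hE
  have h1 := quadraticChar_eq_pow_of_char_ne_two' h2E (Algebra.norm E (z : L))
  have h2 := quadraticChar_eq_pow_of_char_ne_two' h2L (z : L)
  have h3 := congrArg (algebraMap E L) h1
  rw [map_pow, norm_eq hc, ← pow_mul] at h3
  have h4 : (Fintype.card E + 1) * (Fintype.card E / 2) = Fintype.card L / 2 := by
    rw [hc]
    obtain ⟨k, hk⟩ : ∃ k, Fintype.card E = 2 * k + 1 := ⟨Fintype.card E / 2, by omega⟩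
    rw [hk]
    have h5 : (2 * k + 1) ^ 2 = 2 * ((2 * k + 2) * k) + 1 := by ring
    have h6 : (2 * k + 1) / 2 = k := by omega
    rw [h5, h6, show 2 * k + 1 + 1 = 2 * k + 2 from rfl]
    omega
  rw [h4, ← h2, map_intCast] at h3
  rcases quadraticChar_dichotomy (norm_ne hc z) with h5 | h5 <;>
    rcases quadraticChar_dichotomy z.ne_zero with h6 | h6
  · rw [h5, h6]
  · exfalso
    rw [h5, h6] at h3
    push_cast at h3
    exact one_ne_neg_one_of h2L h3
  · exfalso
    rw [h5, h6] at h3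
    push_cast at h3
    exact one_ne_neg_one_of h2L h3.symm
  · rw [h5, h6]

/-- `∑ κ(w) χ(Tr w)` -/
noncomputable def Up (E : Type) {L K : Type} [Field E] [Fintype E] [DecidableEq E] [Field L]
    [Fintype L] [Algebra E L] [Field K] (κ : MulChar L K) : K :=
  ∑ w : L, κ w * (quadraticChar E (Algebra.trace E L w) : K)

theorem torus_part (hc : Fintype.card L = Fintype.card E ^ 2) (hE : Fintype.card E % 4 = 1)
    {b : ℕ} (hb : 0 < b) (hbo : Odd b) (hbQ : b ∣ Fintype.card E + 1) {κ : MulChar L K}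
    (hκ : orderOf κ = 4 * b) :
    ((Fintype.card E - 1 : ℕ) : K) *
      ∑ t : Tor E L, (quadraticChar E (Algebra.trace E L (((t ^ b : Tor E L) : Lˣ) : L)) : K) =
      ∑ j ∈ range (2 * b), Up E (κ ^ (b + 2 * j)) := by
  obtain ⟨g, hg⟩ := exists_gen (E := L)
  have hprim := prim_of_order hg κ hκ
  set φ : Lˣ →* K := (κ ^ 2).toMonoidHom.comp (Units.coeHom L) with hφ
  have hφa : ∀ t : Lˣ, φ t = κ (t : L) ^ 2 := fun t => mpow_apply κ 2 t.ne_zero
  have hφg : IsPrimitiveRoot (φ g) (2 * b) := by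
    rw [hφa]
    exact hprim.pow (by omega) (by ring)
  have hdvd : 2 * b ∣ Fintype.card Lˣ := by
    rw [card_units_L hc, mul_comm 2 b]
    apply mul_dvd_mul hbQ
    exact ⟨(Fintype.card E - 1) / 2, by omega⟩
  have key := sum_pow_dvd (G := Lˣ) (n := 2 * b) (by omega) hdvd g hg φ hφg
    (fun w => κ (w : L) ^ b * (quadraticChar E (Algebra.trace E L (w : L)) : K))
  have h1 := sum_pow_ker (G := Lˣ) (K := K) (m := Fintype.card E + 1) (n := Fintype.card E - 1)
      (card_units_L hc).symm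
      (fun w : Lˣ => (quadraticChar E (Algebra.trace E L ((w ^ b : Lˣ) : L)) : K))
  have h2 : ∀ z : Lˣ, (quadraticChar E (Algebra.trace E L
      (((z⁻¹ ^ (Fintype.card E - 1)) ^ b : Lˣ) : L)) : K) =
      κ ((z ^ (2 * b) : Lˣ) : L) ^ b *
        (quadraticChar E (Algebra.trace E L ((z ^ (2 * b) : Lˣ) : L)) : K) := by
    intro z
    set n := Algebra.norm E ((z⁻¹ : Lˣ) : L) with hn
    have hn0 : n ≠ 0 := norm_ne hc z⁻¹
    have h3 : (((z⁻¹ ^ (Fintype.card E - 1)) ^ b : Lˣ) : L) = (n ^ b) • ((z ^ (2 * b) : Lˣ) : L) := by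
      rw [Algebra.smul_def, map_pow, hn, norm_eq hc, Units.val_pow_eq_pow_val, ← pow_mul,
        Units.val_pow_eq_pow_val, ← pow_mul, Units.val_pow_eq_pow_val, Units.val_inv_eq_inv_val]
      have hz : (z : L) ≠ 0 := z.ne_zero
      have h4 : (Fintype.card E + 1) * b = (Fintype.card E - 1) * b + 2 * b := by
        have : 1 < Fintype.card E := Fintype.one_lt_card
        rw [← add_mul]
        congr 1
        omega
      rw [h4, pow_add, mul_assoc, inv_pow _ (2 * b), inv_mul_cancel₀ (pow_ne_zero _ hz), mul_one]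
    rw [h3, map_smul, smul_eq_mul, map_mul, Int.cast_mul]
    congr 1
    rw [map_pow, hn, quad_norm hc hE, quad_inv, Int.cast_pow,
      ← pow_eq_quad (κ := κ) (m := 2 * b) (by omega) (by rw [hκ]; ring), Units.val_pow_eq_pow_val,
      map_pow, ← pow_mul]
  rw [← Equiv.sum_comp (Equiv.inv Lˣ)] at h1
  simp only [Equiv.inv_apply] at h1
  rw [sum_congr rfl fun z _ => h2 z, key] at h1
  rw [show ∑ t : Tor E L, (quadraticChar E (Algebra.trace E L (((t ^ b : Tor E L) : Lˣ) : L)) : K) =
    ∑ w : (powMonoidHom (Fintype.card E + 1) : Lˣ →* Lˣ).ker,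
      (quadraticChar E (Algebra.trace E L (((w : Lˣ) ^ b : Lˣ) : L)) : K) from rfl, ← h1]
  refine sum_congr rfl fun j _ => ?_
  unfold Up
  rw [sum_units (f := fun w => (κ ^ (b + 2 * j)) w * (quadraticChar E (Algebra.trace E L w) : K))
    (by simp only [MulChar.map_zero, zero_mul])]
  refine sum_congr rfl fun w _ => ?_
  rw [hφa, mpow_apply κ _ w.ne_zero, ← mul_assoc]
  congr 1
  rw [← pow_mul, ← pow_add]
  congr 1
  ring

/-- the restriction to the small field of the characters which occur -/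
theorem restrict (hc : Fintype.card L = Fintype.card E ^ 2) (hE : Fintype.card E % 4 = 1)
    {b : ℕ} (hb : 0 < b) (hbQ : b ∣ Fintype.card E + 1) {κ : MulChar L K}
    (hκ : orderOf κ = 4 * b) {n : ℕ} (hn : Odd n) (hbo : Odd b) (s : Eˣ) :
    (κ ^ n) (algebraMap E L (s : E)) = (quadraticChar E (s : E) : K) := by
  obtain ⟨z, hz⟩ := FiniteField.unitsMap_norm_surjective E L s
  have hz' : Algebra.norm E (z : L) = (s : E) := by
    rw [← hz]; rfl
  have h0 : algebraMap E L (s : E) ≠ 0 := by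
    rw [Ne, map_eq_zero_iff _ (algebraMap E L).injective]
    exact s.ne_zero
  rw [mpow_apply κ n h0, ← hz', quad_norm hc hE, norm_eq hc, map_pow]
  obtain ⟨c, hc'⟩ := hbQ
  have h2 : ∃ c', Fintype.card E + 1 = 2 * b * (2 * c' + 1) := by
    have h3 : (Fintype.card E + 1) % 4 = 2 := by omega
    obtain ⟨k, hk⟩ := hbo
    have h4 : (b * c) % 4 = 2 := by rw [← hc']; exact h3
    have h5 : c % 4 = 2 := by
      rw [Nat.mul_mod] at h4
      have hb4 : b % 4 = 1 ∨ b % 4 = 3 := by omega
      have hc4 : c % 4 = 0 ∨ c % 4 = 1 ∨ c % 4 = 2 ∨ c % 4 = 3 := by omega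
      rcases hb4 with h | h <;> rcases hc4 with h' | h' | h' | h' <;> rw [h, h'] at h4 <;>
        simp at h4 <;> exact h'
    refine ⟨c / 4, ?_⟩
    have h6 : c = 2 * (2 * (c / 4) + 1) := by omega
    rw [hc']
    nth_rewrite 1 [h6]
    ring
  obtain ⟨c', hc''⟩ := h2
  rw [hc'', ← pow_mul, mul_assoc, pow_mul,
    pow_eq_quad (κ := κ) (m := 2 * b) (by omega) (by rw [hκ]; ring)]
  have h3 : Odd ((2 * c' + 1) * n) := Odd.mul ⟨c', rfl⟩ hn
  obtain ⟨m, hm⟩ := h3
  rw [hm, pow_succ, pow_mul, pow_two, ← Int.cast_mul, quad_sq, Int.cast_one, one_pow, one_mul]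

end Pool.Agent.Q275.Cheb
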