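import Pool.Agent.Q275.Cheb.GaussRel

/-!
# Transfer of integral values between fields; equality in the triangle inequality
-/

set_option autoImplicit false
set_option linter.unusedSectionVars false

namespace Pool.Agent.Q275.Cheb

open Finset Polynomial

variable {E : Type} [Field E] [Fintype E] [DecidableEq E]

/-- the polynomial whose values are the sums `∑ c(w) χ(w)^b` -/
noncomputable def sumPoly (c : E → ℤ) (b : ℕ) (g : Eˣ) (hg : ∀ x, x ∈ Subgroup.zpowers g) : ℤ[X] :=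
  ∑ w : Eˣ, Polynomial.C (c (w : E)) * X ^ (b * Classical.choose (gen_pow hg w))

theorem aeval_sumPoly {K : Type} [Field K] [CharZero K] (c : E → ℤ) (b : ℕ) {g : Eˣ}
    (hg : ∀ x, x ∈ Subgroup.zpowers g) (χ : MulChar E K) :
    aeval (χ (g : E)) (sumPoly c b g hg) = ∑ w : E, (χ ^ b) w * (c w : K) := by
  rw [sum_units (f := fun w => (χ ^ b) w * (c w : K)) (by simp only [MulChar.map_zero, zero_mul])]
  unfold sumPoly
  rw [map_sum]
  refine sum_congr rfl fun w _ => ?_
  rw [map_mul, aeval_C, map_pow, aeval_X, mul_comm]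
  congr 1
  rw [mpow_apply χ b w.ne_zero, mul_comm, pow_mul]
  congr 1
  have h := Classical.choose_spec (gen_pow hg w)
  rw [← map_pow, ← Units.val_pow_eq_pow_val, h]

theorem transfer {K K' : Type} [Field K] [CharZero K] [Field K'] [CharZero K'] (c : E → ℤ) (b : ℕ)
    (χ : MulChar E K) (χ' : MulChar E K') {N : ℕ} (hN : 0 < N) (h1 : orderOf χ = N)
    (h2 : orderOf χ' = N) (C : ℤ) (h : ∑ w : E, (χ ^ b) w * (c w : K) = C) :
    ∑ w : E, (χ' ^ b) w * (c w : K') = C := by
  obtain ⟨g, hg⟩ := exists_gen (E := E)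
  have hp1 := prim_of_order hg χ h1
  have hp2 := prim_of_order hg χ' h2
  have h5 : aeval (χ (g : E)) (sumPoly c b g hg - Polynomial.C C) = 0 := by
    rw [map_sub, aeval_sumPoly, h, aeval_C]
    simp
  have h6 : cyclotomic N ℤ ∣ sumPoly c b g hg - Polynomial.C C := by
    rw [cyclotomic_eq_minpoly hp1 hN]
    exact minpoly.isIntegrallyClosed_dvd (hp1.isIntegral hN) h5
  obtain ⟨R, hR⟩ := h6
  have h7 : aeval (χ' (g : E)) (sumPoly c b g hg - Polynomial.C C) = 0 := by
    rw [hR, map_mul]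
    have h8 : aeval (χ' (g : E)) (cyclotomic N ℤ) = 0 := by
      rw [cyclotomic_eq_minpoly hp2 hN, minpoly.aeval]
    rw [h8, zero_mul]
  rw [map_sub, aeval_sumPoly, aeval_C, sub_eq_zero] at h7
  rw [h7]
  simp

/-- equality in the triangle inequality -/
theorem eq_of_sum {ι : Type} {s : Finset ι} {z : ι → ℂ} {r : ℝ} (hz : ∀ i ∈ s, ‖z i‖ ≤ r)
    (hs : ∑ i ∈ s, z i = (s.card : ℂ) * (r : ℂ)) : ∀ i ∈ s, z i = (r : ℂ) := by
  have h1 : ∀ i ∈ s, (z i).re ≤ r := fun i hi => (Complex.re_le_norm _).trans (hz i hi)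
  have h2 : ∑ i ∈ s, (z i).re = ∑ i ∈ s, r := by
    rw [← Complex.re_sum, hs, sum_const, nsmul_eq_mul]
    simp
  have h3 := (sum_eq_sum_iff_of_le h1).1 h2
  intro i hi
  have h4 := h3 i hi
  have h5 := hz i hi
  have h6 : ‖z i‖ ^ 2 = (z i).re ^ 2 + (z i).im ^ 2 := by
    rw [← Complex.normSq_eq_norm_sq, Complex.normSq_apply]
    ring
  have h7 : 0 ≤ ‖z i‖ := norm_nonneg _
  have h8 : (z i).im = 0 := by
    have h9 : (z i).im ^ 2 ≤ 0 := by
      rw [h4] at h6
      nlinarith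
    exact pow_eq_zero_iff (two_ne_zero) |>.1 (le_antisymm h9 (sq_nonneg _))
  apply Complex.ext
  · rw [h4, Complex.ofReal_re]
  · rw [h8, Complex.ofReal_im]

end Pool.Agent.Q275.Cheb
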