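import Pool.Agent.Q275.Cheb.Curve

/-!
# Two different prime factors
-/

set_option autoImplicit false
set_option linter.unusedSectionVars false

namespace Pool.Agent.Q275.Cheb

open Finset

/-- the quadratic character modulo a prime congruent to one modulo four, with its properties -/
theorem exists_quad (ℓ : ℕ) (hℓ : ℓ.Prime) (hℓ4 : ℓ % 4 = 1) :
    ∃ η : DirichletCharacter ℂ ℓ, η (-1) = 1 ∧ (∀ u : (ZMod ℓ)ˣ, η u = 1 ∨ η u = -1) ∧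
      ∃ v : (ZMod ℓ)ˣ, η v = -1 := by
  have : Fact ℓ.Prime := ⟨hℓ⟩
  have h5 : 5 ≤ ℓ := by have := hℓ.two_le; omega
  obtain ⟨η, hη⟩ := exists_order (F := ZMod ℓ) (N := 2) (by rw [ZMod.card]; omega) two_ne_zero
  have hpm : ∀ u : (ZMod ℓ)ˣ, η u = 1 ∨ η u = -1 := by
    intro u
    have h1 := pow_order hη u
    rw [pow_two] at h1
    exact mul_self_eq_one_iff.1 h1
  refine ⟨η, ?_, hpm, ?_⟩
  · obtain ⟨s, hs⟩ := (ZMod.exists_sq_eq_neg_one_iff (p := ℓ)).2 (by omega)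
    have hs0 : s ≠ 0 := by
      rintro rfl
      rw [mul_zero] at hs
      exact neg_ne_zero.2 one_ne_zero hs
    have h3 := pow_order hη (Units.mk0 s hs0)
    rw [Units.val_mk0] at h3
    rw [hs, map_mul, ← pow_two, h3]
  · by_contra hcon
    push Not at hcon
    have h1 : η = 1 := by
      ext v
      rw [MulChar.one_apply_coe]
      exact (hpm v).resolve_right (hcon v)
    rw [h1, orderOf_one] at hη
    omega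

theorem not_two_primes {p ℓ₁ ℓ₂ : ℕ} (hp : p % 4 = 1) (h₁ : ℓ₁.Prime) (h₂ : ℓ₂.Prime)
    (hne : ℓ₁ ≠ ℓ₂) (h₁4 : ℓ₁ % 4 = 1) (h₂4 : ℓ₂ % 4 = 1) (hbal : Bal p (ℓ₁ * ℓ₂)) : False := by
  have hbal' := hbal
  obtain ⟨η₁, hη₁, hpm₁, v₁, hv₁⟩ := exists_quad ℓ₁ h₁ h₁4
  obtain ⟨η₂, hη₂, hpm₂, v₂, hv₂⟩ := exists_quad ℓ₂ h₂ h₂4
  have h15 : 5 ≤ ℓ₁ := by have := h₁.two_le; omega
  have h25 : 5 ≤ ℓ₂ := by have := h₂.two_le; omega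
  have hcop : Nat.Coprime ℓ₁ ℓ₂ := (Nat.coprime_primes h₁ h₂).2 hne
  have hodd : Odd (ℓ₁ * ℓ₂) := (Nat.odd_iff.2 (by omega)).mul (Nat.odd_iff.2 (by omega))
  have h3 : 3 ≤ ℓ₁ * ℓ₂ := by nlinarith
  set c₁ := ZMod.castHom (dvd_mul_right ℓ₁ ℓ₂) (ZMod ℓ₁) with hc₁
  set c₂ := ZMod.castHom (dvd_mul_left ℓ₂ ℓ₁) (ZMod ℓ₂) with hc₂
  set θ₁ : DirichletCharacter ℂ (ℓ₁ * ℓ₂) :=
    DirichletCharacter.changeLevel (dvd_mul_right ℓ₁ ℓ₂) η₁ with hθ₁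
  set θ₂ : DirichletCharacter ℂ (ℓ₁ * ℓ₂) :=
    DirichletCharacter.changeLevel (dvd_mul_left ℓ₂ ℓ₁) η₂ with hθ₂
  have hval₁ : ∀ u : (ZMod (ℓ₁ * ℓ₂))ˣ, θ₁ u = η₁ (c₁ u) := fun u => by
    rw [hθ₁, DirichletCharacter.changeLevel_eq_cast_of_dvd]; rfl
  have hval₂ : ∀ u : (ZMod (ℓ₁ * ℓ₂))ˣ, θ₂ u = η₂ (c₂ u) := fun u => by
    rw [hθ₂, DirichletCharacter.changeLevel_eq_cast_of_dvd]; rfl
  have hneg₁ : θ₁ (-1) = 1 := by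
    have h := hval₁ (-1)
    rw [Units.val_neg, Units.val_one, map_neg c₁, map_one c₁, hη₁] at h
    exact h
  have hneg₂ : θ₂ (-1) = 1 := by
    have h := hval₂ (-1)
    rw [Units.val_neg, Units.val_one, map_neg c₂, map_one c₂, hη₂] at h
    exact h
  -- `p` is a unit
  obtain ⟨pu, hpu⟩ : IsUnit (p : ZMod (ℓ₁ * ℓ₂)) := by
    obtain ⟨F, hF0, hN, -⟩ := hbal
    have h4 : ℓ₁ * ℓ₂ ∣ p ^ F - 1 := dvd_trans ⟨4, by ring⟩ hN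
    have h5 : ((p ^ F - 1 : ℕ) : ZMod (ℓ₁ * ℓ₂)) = 0 := (ZMod.natCast_eq_zero_iff _ _).2 h4
    rw [Nat.cast_sub (Nat.one_le_pow _ _ (by omega)), Nat.cast_one, sub_eq_zero, Nat.cast_pow] at h5
    exact IsUnit.of_pow_eq_one h5 hF0.ne'
  have hp₁ : θ₁ (p : ZMod (ℓ₁ * ℓ₂)) = 1 ∨ θ₁ (p : ZMod (ℓ₁ * ℓ₂)) = -1 := by
    rw [← hpu, hval₁]
    exact hpm₁ (Units.map c₁.toMonoidHom pu)
  have hp₂ : θ₂ (p : ZMod (ℓ₁ * ℓ₂)) = 1 ∨ θ₂ (p : ZMod (ℓ₁ * ℓ₂)) = -1 := by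
    rw [← hpu, hval₂]
    exact hpm₂ (Units.map c₂.toMonoidHom pu)
  -- units with prescribed reductions
  have hcrt : ∀ (a : (ZMod ℓ₁)ˣ) (b : (ZMod ℓ₂)ˣ), ∃ u : (ZMod (ℓ₁ * ℓ₂))ˣ,
      c₁ u = (a : ZMod ℓ₁) ∧ c₂ u = (b : ZMod ℓ₂) := by
    intro a b
    obtain ⟨k, hk1, hk2⟩ := Nat.chineseRemainder hcop (a : ZMod ℓ₁).val (b : ZMod ℓ₂).val
    have : NeZero ℓ₁ := ⟨by omega⟩
    have : NeZero ℓ₂ := ⟨by omega⟩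
    have hk1' : Nat.Coprime k ℓ₁ := by
      rw [Nat.coprime_iff_gcd_eq_one, Nat.ModEq.gcd_eq hk1]
      exact ZMod.val_coe_unit_coprime a
    have hk2' : Nat.Coprime k ℓ₂ := by
      rw [Nat.coprime_iff_gcd_eq_one, Nat.ModEq.gcd_eq hk2]
      exact ZMod.val_coe_unit_coprime b
    refine ⟨ZMod.unitOfCoprime k (Nat.Coprime.mul_right hk1' hk2'), ?_, ?_⟩
    · rw [ZMod.coe_unitOfCoprime, map_natCast, ← ZMod.natCast_zmod_val (a : ZMod ℓ₁),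
        ZMod.natCast_eq_natCast_iff]
      exact hk1
    · rw [ZMod.coe_unitOfCoprime, map_natCast, ← ZMod.natCast_zmod_val (b : ZMod ℓ₂),
        ZMod.natCast_eq_natCast_iff]
      exact hk2
  obtain ⟨u₁, hu₁, hu₁'⟩ := hcrt v₁ 1
  obtain ⟨u₂, hu₂, hu₂'⟩ := hcrt 1 v₂
  have hθ₁u : θ₁ u₁ = -1 := by rw [hval₁, hu₁, hv₁]
  have hθ₂u : θ₂ u₂ = -1 := by rw [hval₂, hu₂', hv₂]
  have hθ₂u₁ : θ₂ u₁ = 1 := by rw [hval₂, hu₁', Units.val_one, map_one]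
  have hne1 : ∀ {θ : DirichletCharacter ℂ (ℓ₁ * ℓ₂)} {u : (ZMod (ℓ₁ * ℓ₂))ˣ}, θ u = -1 → θ ≠ 1 := by
    intro θ u h h1
    rw [h1, MulChar.one_apply_coe] at h
    norm_num at h
  rcases hp₁ with h | h
  · exact no_even h3 hodd hp hbal' θ₁ hneg₁ h (hne1 hθ₁u)
  · rcases hp₂ with h' | h'
    · exact no_even h3 hodd hp hbal' θ₂ hneg₂ h' (hne1 hθ₂u)
    · refine no_even h3 hodd hp hbal' (θ₁ * θ₂) ?_ ?_ (hne1 (u := u₁) ?_)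
      · rw [MulChar.mul_apply, hneg₁, hneg₂, one_mul]
      · rw [MulChar.mul_apply, h, h']; norm_num
      · rw [MulChar.mul_apply, hθ₁u, hθ₂u₁, mul_one]

/-- the conclusion -/
theorem prime_power_of_bal {p d : ℕ} (hp : p % 4 = 1) (hd : Odd d) (hd3 : 3 ≤ d)
    (hbal : Bal p d) : ∃ ℓ n : ℕ, ℓ.Prime ∧ ℓ % 4 = 1 ∧ 1 ≤ n ∧ d = ℓ ^ n := by
  have hmod : ∀ ℓ : ℕ, ℓ.Prime → ℓ ∣ d → ℓ % 4 = 1 := by
    intro ℓ hℓ hℓd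
    have h1 : Odd ℓ := Odd.of_dvd_nat hd hℓd
    have h2 : ℓ % 4 ≠ 3 := fun h => no_three hp h (hbal.of_dvd hd hℓd)
    have h3 := Nat.odd_iff.1 h1
    omega
  obtain ⟨ℓ, hℓ, hℓd⟩ := Nat.exists_prime_and_dvd (n := d) (by omega)
  refine ⟨ℓ, d.factorization ℓ, hℓ, hmod ℓ hℓ hℓd,
    (hℓ.dvd_iff_one_le_factorization (by omega)).1 hℓd, ?_⟩
  by_contra hcon
  have h1 : d / ℓ ^ d.factorization ℓ ≠ 1 := by
    intro h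
    apply hcon
    have h2 := Nat.ordProj_mul_ordCompl_eq_self d ℓ
    rw [h, mul_one] at h2
    exact h2.symm
  obtain ⟨ℓ', hℓ', hℓ'd⟩ := Nat.exists_prime_and_dvd h1
  have h2 : ℓ' ≠ ℓ := by
    rintro rfl
    exact Nat.not_dvd_ordCompl hℓ (by omega) hℓ'd
  have h3 : ℓ' ∣ d := hℓ'd.trans (Nat.ordCompl_dvd d ℓ)
  have h4 : ℓ * ℓ' ∣ d :=
    ((Nat.coprime_primes hℓ hℓ').2 (Ne.symm h2)).mul_dvd_of_dvd_of_dvd hℓd h3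
  exact not_two_primes hp hℓ hℓ' (Ne.symm h2) (hmod ℓ hℓ hℓd) (hmod ℓ' hℓ' h3)
    (hbal.of_dvd hd h4)

end Pool.Agent.Q275.Cheb
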